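import Mathlib

/-!
# Rigid motions of the complex plane and integer valued functions: basic facts
-/

namespace Pool.Agent.MP_8e2340_co

open Function Set

/-- invariance of `f` under `x ↦ ω x + b` -/
def Inv (f : ℂ → ℤ) (ω b : ℂ) : Prop := ∀ x, f (ω * x + b) = f x

/-- `f` is invariant under some nontrivial orientation preserving isometry -/
def HasSym (f : ℂ → ℤ) : Prop := ∃ ω b : ℂ, ‖ω‖ = 1 ∧ (ω ≠ 1 ∨ b ≠ 0) ∧ Inv f ω b

/-- `f` is invariant under a nontrivial translation -/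
def Per (f : ℂ → ℤ) : Prop := ∃ t : ℂ, t ≠ 0 ∧ ∀ x, f (x + t) = f x

/-- invariance under the rotation with centre `p` and factor `ω` -/
def Rot (f : ℂ → ℤ) (p ω : ℂ) : Prop := ∀ x, f (p + ω * (x - p)) = f x

/-- invariance under a half-turn -/
def HT (f : ℂ → ℤ) : Prop := ∃ p, Rot f p (-1)

open Classical in
/-- the indicator function of the point `w` -/
noncomputable def dl (w : ℂ) : ℂ → ℤ := fun x => if x = w then 1 else 0

lemma dl_self (w : ℂ) : dl w w = 1 := by simp [dl]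

lemma dl_ne {w x : ℂ} (h : x ≠ w) : dl w x = 0 := by simp [dl, h]

lemma dl_nonneg (w x : ℂ) : 0 ≤ dl w x := by unfold dl; split_ifs <;> norm_num

lemma dl_le_one (w x : ℂ) : dl w x ≤ 1 := by unfold dl; split_ifs <;> norm_num

lemma dl_eq_one_iff {w x : ℂ} : dl w x = 1 ↔ x = w := by
  unfold dl; split_ifs with h <;> simp [h]

lemma dl_eq_zero_iff {w x : ℂ} : dl w x = 0 ↔ x ≠ w := by
  unfold dl; split_ifs with h <;> simp [h]

lemma support_dl (w : ℂ) : support (dl w) = {w} := by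
  ext x; simp [dl]

lemma dl_fin (w : ℂ) : (support (dl w)).Finite := by
  rw [support_dl]; exact finite_singleton w

lemma fin_add {f g : ℂ → ℤ} (hf : (support f).Finite) (hg : (support g).Finite) :
    (support (f + g)).Finite := (hf.union hg).subset (support_add _ _)

lemma fin_smul {f : ℂ → ℤ} (c : ℤ) (hf : (support f).Finite) :
    (support (c • f)).Finite := hf.subset (support_const_smul_subset c f)

lemma fin_sub {f g : ℂ → ℤ} (hf : (support f).Finite) (hg : (support g).Finite) :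
    (support (f - g)).Finite := (hf.union hg).subset (support_sub _ _)

lemma rot_of_hasSym {f : ℂ → ℤ} (h : HasSym f) (hp : ¬ Per f) :
    ∃ p ω, ‖ω‖ = 1 ∧ ω ≠ 1 ∧ Rot f p ω := by
  obtain ⟨ω, b, hω, hne, hinv⟩ := h
  by_cases h1 : ω = 1
  · subst h1
    have hb : b ≠ 0 := by tauto
    exact absurd ⟨b, hb, fun x => by simpa using hinv x⟩ hp
  · have h2 : 1 - ω ≠ 0 := sub_ne_zero.mpr (Ne.symm h1)
    refine ⟨b / (1 - ω), ω, hω, h1, fun x => ?_⟩
    have : b / (1 - ω) + ω * (x - b / (1 - ω)) = ω * x + b := by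
      field_simp; ring
    rw [this]; exact hinv x

lemma zero_of_finite_per {f : ℂ → ℤ} (hf : (support f).Finite) {t : ℂ} (ht : t ≠ 0)
    (h : ∀ x, f (x + t) = f x) : f = 0 := by
  by_contra hne
  obtain ⟨x, hx⟩ : ∃ x, f x ≠ 0 := by
    by_contra hcon
    push Not at hcon
    exact hne (funext hcon)
  have h2 : ∀ n : ℕ, f (x + n * t) = f x := by
    intro n
    induction n with
    | zero => simp
    | succ n ih =>
      rw [← ih, ← h (x + n * t)]
      congr 1; push_cast; ring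
  refine absurd hf ?_
  refine Set.infinite_of_injective_forall_mem (f := fun n : ℕ => x + n * t) ?_ ?_
  · intro a b hab
    simp only [add_right_inj] at hab
    have := mul_right_cancel₀ ht hab
    exact_mod_cast this
  · intro n
    rw [mem_support, h2]; exact hx

lemma not_per_of_finite {f : ℂ → ℤ} (hf : (support f).Finite) (h0 : f ≠ 0) : ¬ Per f := by
  rintro ⟨t, ht, h⟩
  exact h0 (zero_of_finite_per hf ht h)

lemma ne_zero_of_norm {ω : ℂ} (h : ‖ω‖ = 1) : ω ≠ 0 := by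
  rintro rfl; simp at h

/-- two rotations with different centres produce a translation -/
lemma per_of_rot_rot {f : ℂ → ℤ} {p q ω ω' : ℂ} (h1 : Rot f p ω) (h2 : Rot f q ω')
    (hω0 : ω ≠ 0) (hω0' : ω' ≠ 0) (hω : ω ≠ 1) (hω' : ω' ≠ 1) (hpq : p ≠ q) : Per f := by
  refine ⟨(1 - ω) * (1 - ω') * (p - q), ?_, fun y => ?_⟩
  · exact mul_ne_zero (mul_ne_zero (sub_ne_zero.mpr (Ne.symm hω)) (sub_ne_zero.mpr (Ne.symm hω')))
      (sub_ne_zero.mpr hpq)
  · obtain ⟨x, hx⟩ : ∃ x, y = q + ω' * ((p + ω * (x - p)) - q) := by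
      refine ⟨p + ω⁻¹ * (q + ω'⁻¹ * (y - q) - p), ?_⟩
      field_simp; ring
    have e1 : f y = f x := by rw [hx, h2, h1]
    have e2 : y + (1 - ω) * (1 - ω') * (p - q) = p + ω * ((q + ω' * (x - q)) - p) := by
      rw [hx]; ring
    rw [e2, h1, h2, e1]

lemma zero_of_rot_rot {f : ℂ → ℤ} (hf : (support f).Finite) {p q ω ω' : ℂ} (h1 : Rot f p ω)
    (h2 : Rot f q ω') (hω0 : ω ≠ 0) (hω0' : ω' ≠ 0) (hω : ω ≠ 1) (hω' : ω' ≠ 1) (hpq : p ≠ q) :
    f = 0 := by
  by_contra h0
  exact not_per_of_finite hf h0 (per_of_rot_rot h1 h2 hω0 hω0' hω hω' hpq)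

/-! ### Moments -/

/-- `∑ f(x) φ(x)` -/
noncomputable def mom (f : ℂ → ℤ) (φ : ℂ → ℂ) : ℂ := ∑ᶠ x, (f x : ℂ) * φ x

lemma mom_eq_sum {f : ℂ → ℤ} (φ : ℂ → ℂ) {s : Finset ℂ} (hs : support f ⊆ s) :
    mom f φ = ∑ x ∈ s, (f x : ℂ) * φ x := by
  unfold mom
  refine finsum_eq_sum_of_support_subset _ ?_
  intro x hx
  apply hs
  rw [mem_support] at hx ⊢
  intro h
  apply hx
  simp [h]

lemma mom_add_left {f g : ℂ → ℤ} (hf : (support f).Finite) (hg : (support g).Finite)
    (φ : ℂ → ℂ) : mom (f + g) φ = mom f φ + mom g φ := by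
  have h1 : support f ⊆ ((hf.union hg).toFinset : Set ℂ) := by simp
  have h2 : support g ⊆ ((hf.union hg).toFinset : Set ℂ) := by simp
  have h3 : support (f + g) ⊆ ((hf.union hg).toFinset : Set ℂ) := by
    rw [Set.Finite.coe_toFinset]
    exact support_add f g
  rw [mom_eq_sum φ h1, mom_eq_sum φ h2, mom_eq_sum φ h3, ← Finset.sum_add_distrib]
  refine Finset.sum_congr rfl fun x _ => ?_
  simp only [Pi.add_apply]; push_cast; ring

lemma mom_smul_left {f : ℂ → ℤ} (hf : (support f).Finite) (c : ℤ)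
    (φ : ℂ → ℂ) : mom (c • f) φ = c * mom f φ := by
  have h1 : support f ⊆ (hf.toFinset : Set ℂ) := by simp
  have h2 : support (c • f) ⊆ (hf.toFinset : Set ℂ) := by
    rw [Set.Finite.coe_toFinset]
    exact support_const_smul_subset c f
  rw [mom_eq_sum φ h1, mom_eq_sum φ h2, Finset.mul_sum]
  refine Finset.sum_congr rfl fun x _ => ?_
  simp only [Pi.smul_apply, smul_eq_mul]; push_cast; ring

lemma mom_dl (w : ℂ) (φ : ℂ → ℂ) : mom (dl w) φ = φ w := by
  have h : support (dl w) ⊆ (({w} : Finset ℂ) : Set ℂ) := by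
    rw [support_dl]; simp
  rw [mom_eq_sum φ h]; simp [dl_self]

lemma mom_add_right {f : ℂ → ℤ} (hf : (support f).Finite) (φ ψ : ℂ → ℂ) :
    mom f (φ + ψ) = mom f φ + mom f ψ := by
  have h1 : support f ⊆ (hf.toFinset : Set ℂ) := by simp
  rw [mom_eq_sum _ h1, mom_eq_sum _ h1, mom_eq_sum _ h1, ← Finset.sum_add_distrib]
  refine Finset.sum_congr rfl fun x _ => ?_
  simp only [Pi.add_apply]; ring

lemma mom_smul_right {f : ℂ → ℤ} (hf : (support f).Finite) (c : ℂ) (φ : ℂ → ℂ) :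
    mom f (c • φ) = c * mom f φ := by
  have h1 : support f ⊆ (hf.toFinset : Set ℂ) := by simp
  rw [mom_eq_sum _ h1, mom_eq_sum _ h1, Finset.mul_sum]
  refine Finset.sum_congr rfl fun x _ => ?_
  simp only [Pi.smul_apply, smul_eq_mul]; ring

/-- invariance of moments -/
lemma mom_inv {f : ℂ → ℤ} {ω b : ℂ} (h0 : ω ≠ 0) (h : Inv f ω b) (φ : ℂ → ℂ) :
    mom f (fun x => φ (ω * x + b)) = mom f φ := by
  let e : ℂ ≃ ℂ :=
    { toFun := fun x => ω * x + b
      invFun := fun y => ω⁻¹ * (y - b)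
      left_inv := fun x => by field_simp; ring
      right_inv := fun y => by field_simp; ring }
  unfold mom
  rw [← finsum_comp_equiv e (f := fun x => (f x : ℂ) * φ x)]
  refine finsum_congr fun x => ?_
  change (f x : ℂ) * φ (ω * x + b) = (f (ω * x + b) : ℂ) * φ (ω * x + b)
  rw [h x]

lemma mom_rot {f : ℂ → ℤ} {p ω : ℂ} (h0 : ω ≠ 0) (h : Rot f p ω) (φ : ℂ → ℂ) :
    mom f (fun x => φ (p + ω * (x - p))) = mom f φ := by
  have h1 : Inv f ω (p - ω * p) := by
    intro x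
    rw [← h x]; congr 1; ring
  rw [← mom_inv h0 h1 φ]
  congr 1
  funext x
  congr 1; ring

/-- the centred moment of order `k` vanishes unless `ω ^ k = 1` -/
lemma mom_rot_pow {f : ℂ → ℤ} (hf : (support f).Finite) {p ω : ℂ} (h0 : ω ≠ 0) (h : Rot f p ω)
    (k : ℕ) (hk : ω ^ k ≠ 1) : mom f (fun x => (x - p) ^ k) = 0 := by
  have h1 := mom_rot h0 h (fun x => (x - p) ^ k)
  have h2 : (fun x => (p + ω * (x - p) - p) ^ k) = (ω ^ k) • (fun x : ℂ => (x - p) ^ k) := by
    funext x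
    simp only [Pi.smul_apply, smul_eq_mul]
    rw [add_sub_cancel_left, mul_pow]
  have h3 : mom f (fun x => (p + ω * (x - p) - p) ^ k) = mom f (fun x => (x - p) ^ k) := h1
  rw [h2, mom_smul_right hf] at h3
  have h4 : (ω ^ k - 1) * mom f (fun x => (x - p) ^ k) = 0 := by linear_combination h3
  rcases mul_eq_zero.mp h4 with h5 | h5
  · exact absurd (sub_eq_zero.mp h5) hk
  · exact h5

/-- raw moments -/
noncomputable def M (f : ℂ → ℤ) (k : ℕ) : ℂ := mom f (fun x => x ^ k)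

lemma M_add {f g : ℂ → ℤ} (hf : (support f).Finite) (hg : (support g).Finite) (k : ℕ) :
    M (f + g) k = M f k + M g k := mom_add_left hf hg _

lemma M_smul {f : ℂ → ℤ} (hf : (support f).Finite) (c : ℤ) (k : ℕ) :
    M (c • f) k = c * M f k := mom_smul_left hf c _

lemma M_dl (w : ℂ) (k : ℕ) : M (dl w) k = w ^ k := mom_dl w _

lemma cm1 {f : ℂ → ℤ} (hf : (support f).Finite) (q : ℂ) :
    mom f (fun x => (x - q) ^ 1) = M f 1 - q * M f 0 := by
  have : (fun x : ℂ => (x - q) ^ 1) = (fun x => x ^ 1) + (-q) • (fun x => x ^ 0) := by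
    funext x; simp only [Pi.add_apply, Pi.smul_apply, smul_eq_mul]; ring
  rw [this, mom_add_right hf, mom_smul_right hf]
  unfold M; ring

lemma cm2 {f : ℂ → ℤ} (hf : (support f).Finite) (q : ℂ) :
    mom f (fun x => (x - q) ^ 2) = M f 2 - 2 * q * M f 1 + q ^ 2 * M f 0 := by
  have : (fun x : ℂ => (x - q) ^ 2) =
      (fun x => x ^ 2) + ((-2 * q) • (fun x => x ^ 1) + (q ^ 2) • (fun x => x ^ 0)) := by
    funext x; simp only [Pi.add_apply, Pi.smul_apply, smul_eq_mul]; ring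
  rw [this, mom_add_right hf, mom_add_right hf, mom_smul_right hf, mom_smul_right hf]
  unfold M; ring

lemma cm3 {f : ℂ → ℤ} (hf : (support f).Finite) (q : ℂ) :
    mom f (fun x => (x - q) ^ 3) =
      M f 3 - 3 * q * M f 2 + 3 * q ^ 2 * M f 1 - q ^ 3 * M f 0 := by
  have : (fun x : ℂ => (x - q) ^ 3) =
      (fun x => x ^ 3) + ((-3 * q) • (fun x => x ^ 2) + ((3 * q ^ 2) • (fun x => x ^ 1) +
        (-q ^ 3) • (fun x => x ^ 0))) := by
    funext x; simp only [Pi.add_apply, Pi.smul_apply, smul_eq_mul]; ring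
  rw [this, mom_add_right hf, mom_add_right hf, mom_add_right hf, mom_smul_right hf,
    mom_smul_right hf, mom_smul_right hf]
  unfold M; ring

lemma cm5 {f : ℂ → ℤ} (hf : (support f).Finite) (q : ℂ) :
    mom f (fun x => (x - q) ^ 5) =
      M f 5 - 5 * q * M f 4 + 10 * q ^ 2 * M f 3 - 10 * q ^ 3 * M f 2 + 5 * q ^ 4 * M f 1
        - q ^ 5 * M f 0 := by
  have : (fun x : ℂ => (x - q) ^ 5) =
      (fun x => x ^ 5) + ((-5 * q) • (fun x => x ^ 4) + ((10 * q ^ 2) • (fun x => x ^ 3) +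
        ((-10 * q ^ 3) • (fun x => x ^ 2) + ((5 * q ^ 4) • (fun x => x ^ 1) +
        (-q ^ 5) • (fun x => x ^ 0))))) := by
    funext x; simp only [Pi.add_apply, Pi.smul_apply, smul_eq_mul]; ring
  rw [this, mom_add_right hf, mom_add_right hf, mom_add_right hf, mom_add_right hf,
    mom_add_right hf, mom_smul_right hf, mom_smul_right hf, mom_smul_right hf,
    mom_smul_right hf, mom_smul_right hf]
  unfold M; ring

lemma eq_neg_one_of_sq {ω : ℂ} (h : ω ^ 2 = 1) (h1 : ω ≠ 1) : ω = -1 := by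
  have h2 : (ω - 1) * (ω + 1) = 0 := by linear_combination h
  rcases mul_eq_zero.mp h2 with h3 | h3
  · exact absurd (sub_eq_zero.mp h3) h1
  · linear_combination h3

/-- the moment criterion for symmetric finite configurations -/
lemma moment_criterion {f : ℂ → ℤ} (hf : (support f).Finite) (h : HasSym f) (h0 : M f 0 ≠ 0) :
    M f 0 * M f 2 = M f 1 ^ 2 ∨
      M f 0 ^ 2 * M f 3 - 3 * M f 0 * M f 1 * M f 2 + 2 * M f 1 ^ 3 = 0 := by
  have hne : f ≠ 0 := by
    rintro rfl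
    apply h0
    unfold M mom
    simp
  obtain ⟨p, ω, hω, hω1, hrot⟩ := rot_of_hasSym h (not_per_of_finite hf hne)
  have hω0 := ne_zero_of_norm hω
  have h1 := mom_rot_pow hf hω0 hrot 1 (by simpa using hω1)
  rw [cm1 hf] at h1
  by_cases h2 : ω ^ 2 = 1
  · have h3 : ω = -1 := eq_neg_one_of_sq h2 hω1
    have h4 := mom_rot_pow hf hω0 hrot 3 (by rw [h3]; norm_num)
    rw [cm3 hf] at h4
    right
    have h5 : M f 1 = p * M f 0 := by linear_combination h1
    rw [h5] at h4 ⊢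
    linear_combination (M f 0) ^ 2 * h4
  · have h4 := mom_rot_pow hf hω0 hrot 2 h2
    rw [cm2 hf] at h4
    left
    have h5 : M f 1 = p * M f 0 := by linear_combination h1
    rw [h5] at h4 ⊢
    linear_combination (M f 0) * h4

end Pool.Agent.MP_8e2340_co
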