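import Pool.Agent.MP_8e2340_co.TriFalse

/-!
# The half-turn case, for arbitrary integer valued functions
-/

namespace Pool.Agent.MP_8e2340_co

open Function Set

/-- a periodic function that is invariant under a motion up to finitely many points is invariant -/
lemma inv_of_per {h : ℂ → ℤ} {w : ℂ} (hw : w ≠ 0) (hper : ∀ x, h (x + w) = h x) {ω b : ℂ}
    (hω : ω ≠ 0) (hfin : {x | h (ω * x + b) ≠ h x}.Finite) : Inv h ω b := by
  set k : ℂ → ℤ := fun x => h (ω * x + b) - h x with hk
  have hkfin : (support k).Finite := by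
    refine hfin.subset fun x hx => ?_
    intro h1
    apply hx
    simp [hk, h1]
  have hw' : ω⁻¹ * w ≠ 0 := mul_ne_zero (inv_ne_zero hω) hw
  have h1 : ∀ x, h (ω * (x + ω⁻¹ * w) + b) = h (ω * x + b) := by
    intro x
    rw [← hper (ω * x + b)]; congr 1
    field_simp; ring
  set k' : ℂ → ℤ := fun x => h (x + ω⁻¹ * w) - h x with hk'
  have hk'k : ∀ x, k' x = k x - k (x + ω⁻¹ * w) := by
    intro x
    simp only [hk, hk']
    rw [h1]; ring
  have hk'fin : (support k').Finite := by
    have : k' = k - fun x => k (x + ω⁻¹ * w) := by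
      funext x; exact hk'k x
    rw [this]
    exact fin_sub hkfin (sh_fin _ hkfin)
  have h2 : k' = 0 := by
    refine zero_of_finite_per hk'fin hw fun x => ?_
    simp only [hk']
    rw [hper, show x + w + ω⁻¹ * w = x + ω⁻¹ * w + w by ring, hper]
  have h3 : k = 0 := by
    refine zero_of_finite_per hkfin hw' fun x => ?_
    have h4 := hk'k x
    rw [h2] at h4
    simp only [Pi.zero_apply] at h4
    omega
  intro x
  have := congrFun h3 x
  simp only [hk, Pi.zero_apply] at this
  omega

/-- the relation satisfied by `x`, `y` when `{0, x, y}` is symmetric -/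
def Rel (x y : ℂ) : Prop := x ^ 2 - x * y + y ^ 2 = 0 ∨ y = -x ∨ y = 2 * x ∨ x = 2 * y

lemma rel_of_hasSym {x y : ℂ} (h : HasSym (dl 0 + dl x + dl y)) : Rel x y := by
  have hfin : (support (dl 0 + dl x + dl y)).Finite :=
    fin_add (fin_add (dl_fin _) (dl_fin _)) (dl_fin _)
  have hM : ∀ k, M (dl 0 + dl x + dl y) k = 0 ^ k + x ^ k + y ^ k := by
    intro k
    rw [M_add (fin_add (dl_fin _) (dl_fin _)) (dl_fin _), M_add (dl_fin _) (dl_fin _),
      M_dl, M_dl, M_dl]
  have key := moment_criterion hfin h (by rw [hM]; norm_num)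
  simp only [hM] at key
  rcases key with k | k
  · left
    linear_combination (1 / 2 : ℂ) * k
  · have h1 : (x + y) * ((2 * x - y) * (x - 2 * y)) = 0 := by
      linear_combination k
    rcases mul_eq_zero.mp h1 with h2 | h2
    · right; left; linear_combination h2
    · rcases mul_eq_zero.mp h2 with h3 | h3
      · right; right; left; linear_combination -h3
      · right; right; right; linear_combination h3

lemma no_three {r s : ℂ} (hr0 : r ≠ 0) (hs0 : s ≠ 0) (hr1 : r ≠ 1) (hs1 : s ≠ 1) (hrs : r ≠ s)
    (hr : 1 - r + r ^ 2 = 0 ∨ r = -1 ∨ r = 2 ∨ 2 * r = 1)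
    (hs : 1 - s + s ^ 2 = 0 ∨ s = -1 ∨ s = 2 ∨ 2 * s = 1)
    (h : Rel r s) : False := by
  unfold Rel at h
  have hr2 : (2 * r = 1) → r = 1 / 2 := fun h => by linear_combination (1 / 2 : ℂ) * h
  have hs2 : (2 * s = 1) → s = 1 / 2 := fun h => by linear_combination (1 / 2 : ℂ) * h
  have hr' : 1 - r + r ^ 2 = 0 ∨ r = -1 ∨ r = 2 ∨ r = 1 / 2 := by tauto
  have hs' : 1 - s + s ^ 2 = 0 ∨ s = -1 ∨ s = 2 ∨ s = 1 / 2 := by tauto
  clear hr hs hr2 hs2
  rcases hr' with hr | rfl | rfl | rfl <;> rcases hs' with hs | rfl | rfl | rfl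
  · rcases h with h | h | h | h
    · have h1 : (r - s) * (r + s - 1) = 0 := by linear_combination hr - hs
      have h2 : r + s - 1 = 0 := by
        rcases mul_eq_zero.mp h1 with h3 | h3
        · exact absurd (sub_eq_zero.mp h3) hrs
        · exact h3
      have h3 : s = 1 - r := by linear_combination h2
      rw [h3] at h
      have : (2 : ℂ) = 0 := by linear_combination 3 * hr - h
      norm_num at this
    · rw [h] at hs
      have : 2 * r = 0 := by linear_combination hs - hr
      simp [hr0] at this
    · rw [h] at hs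
      have h1 : 2 * r = 3 := by linear_combination hs - 4 * hr
      have h2 : r = 3 / 2 := by linear_combination (1 / 2 : ℂ) * h1
      rw [h2] at hr
      norm_num at hr
    · rw [h] at hr
      have h1 : 2 * s = 3 := by linear_combination hr - 4 * hs
      have h2 : s = 3 / 2 := by linear_combination (1 / 2 : ℂ) * h1
      rw [h2] at hs
      norm_num at hs
  · rcases h with h | h | h | h
    · have : 2 * r = 0 := by linear_combination h - hr
      simp [hr0] at this
    · exact hr1 (by linear_combination h)
    · have h2 : r = -1 / 2 := by linear_combination -(1 / 2 : ℂ) * h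
      rw [h2] at hr; norm_num at hr
    · rw [h] at hr; norm_num at hr
  · rcases h with h | h | h | h
    · have : r = 3 := by linear_combination hr - h
      rw [this] at hr; norm_num at hr
    · have : r = -2 := by linear_combination h
      rw [this] at hr; norm_num at hr
    · exact hr1 (by linear_combination -(1 / 2 : ℂ) * h)
    · rw [h] at hr; norm_num at hr
  · rcases h with h | h | h | h
    · have : r = 3 / 2 := by linear_combination 2 * (h - hr)
      rw [this] at hr; norm_num at hr
    · have : r = -1 / 2 := by linear_combination h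
      rw [this] at hr; norm_num at hr
    · have : r = 1 / 4 := by linear_combination -(1 / 2 : ℂ) * h
      rw [this] at hr; norm_num at hr
    · exact hr1 (by rw [h]; norm_num)
  · rcases h with h | h | h | h
    · have : 2 * s = 0 := by linear_combination h - hs
      simp [hs0] at this
    · exact hs1 (by rw [h]; norm_num)
    · rw [h] at hs; norm_num at hs
    · have h2 : s = -1 / 2 := by linear_combination -(1 / 2 : ℂ) * h
      rw [h2] at hs; norm_num at hs
  · exact hrs rfl
  · norm_num at h
  · norm_num at h
  · rcases h with h | h | h | h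
    · have : s = 3 := by linear_combination hs - h
      rw [this] at hs; norm_num at hs
    · rw [h] at hs; norm_num at hs
    · rw [h] at hs; norm_num at hs
    · exact hs1 (by linear_combination -(1 / 2 : ℂ) * h)
  · norm_num at h
  · exact hrs rfl
  · norm_num at h
  · rcases h with h | h | h | h
    · have : s = 3 / 2 := by linear_combination 2 * (h - hs)
      rw [this] at hs; norm_num at hs
    · rw [h] at hs; norm_num at hs
    · exact hs1 (by rw [h]; norm_num)
    · have : s = 1 / 4 := by linear_combination -(1 / 2 : ℂ) * h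
      rw [this] at hs; norm_num at hs
  · norm_num at h
  · norm_num at h
  · exact hrs rfl

lemma no_three' {x y z : ℂ} (hx : x ≠ 0) (hy : y ≠ 0) (hz : z ≠ 0) (hxy : x ≠ y) (hxz : x ≠ z)
    (hyz : y ≠ z) (h1 : Rel x y) (h2 : Rel x z) (h3 : Rel y z) : False := by
  have ey : y = x * (y / x) := by field_simp
  have ez : z = x * (z / x) := by field_simp
  set r := y / x with hr
  set s := z / x with hs
  have aux : ∀ t : ℂ, Rel x (x * t) → (1 - t + t ^ 2 = 0 ∨ t = -1 ∨ t = 2 ∨ 2 * t = 1) := by
    intro t ht
    rcases ht with h | h | h | h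
    · left
      have : x ^ 2 * (1 - t + t ^ 2) = 0 := by linear_combination h
      rcases mul_eq_zero.mp this with h | h
      · exact absurd (pow_eq_zero_iff (by norm_num) |>.mp h) hx
      · exact h
    · right; left
      exact mul_left_cancel₀ hx (by linear_combination h)
    · right; right; left
      exact mul_left_cancel₀ hx (by linear_combination h)
    · right; right; right
      exact mul_left_cancel₀ hx (by linear_combination -h)
  refine no_three (r := r) (s := s) (div_ne_zero hy hx) (div_ne_zero hz hx) ?_ ?_ ?_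
    (aux r (ey ▸ h1)) (aux s (ez ▸ h2)) ?_
  · intro h; rw [h, mul_one] at ey; exact hxy ey.symm
  · intro h; rw [h, mul_one] at ez; exact hxz ez.symm
  · intro h; rw [h, ← ez] at ey; exact hyz ey
  · rw [ey, ez] at h3
    rcases h3 with h | h | h | h
    · left
      have : x ^ 2 * (r ^ 2 - r * s + s ^ 2) = 0 := by linear_combination h
      rcases mul_eq_zero.mp this with h | h
      · exact absurd (pow_eq_zero_iff (by norm_num) |>.mp h) hx
      · exact h
    · right; left
      exact mul_left_cancel₀ hx (by linear_combination h)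
    · right; right; left
      exact mul_left_cancel₀ hx (by linear_combination h)
    · right; right; right
      exact mul_left_cancel₀ hx (by linear_combination h)

/-- the half-turn case -/
lemma half_turn_false {f : ℂ → ℤ} (hf : Rot f 0 (-1)) (hnp : ¬ Per f) {w₁ w₂ w₃ : ℂ}
    (h12 : w₁ ≠ w₂) (h13 : w₁ ≠ w₃) (h23 : w₂ ≠ w₃) (h1 : w₁ ≠ 0) (h2 : w₂ ≠ 0) (h3 : w₃ ≠ 0)
    (k1 : HT (f + dl w₁)) (k2 : HT (f + dl w₂)) (k3 : HT (f + dl w₃))
    (p12 : HasSym (f + dl w₁ + dl w₂)) (p13 : HasSym (f + dl w₁ + dl w₃))
    (p23 : HasSym (f + dl w₂ + dl w₃)) : False := by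
  have hf' : ∀ x, f (-x) = f x := by
    intro x
    have := hf x
    rwa [zero_add, sub_zero, neg_one_mul] at this
  have shift : ∀ w q, Rot (f + dl w) q (-1) → ∀ x, f (x + 2 * q) =
      f x + dl (-w) x - dl (w - 2 * q) x := by
    intro w q hq x
    have h4 := hq (-x)
    simp only [Pi.add_apply] at h4
    rw [hf' x, show q + -1 * (-x - q) = x + 2 * q by ring] at h4
    have h5 : dl w (-x) = dl (-w) x := dl_congr (by
      constructor
      · intro h; linear_combination -h
      · intro h; linear_combination -h)
    have h6 : dl w (x + 2 * q) = dl (w - 2 * q) x := dl_congr (by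
      constructor
      · intro h; linear_combination h
      · intro h; linear_combination h)
    rw [h5, h6] at h4
    omega
  have basic : ∀ w q, w ≠ 0 → Rot (f + dl w) q (-1) → 2 * q ≠ 0 ∧ 2 * q ≠ 2 * w := by
    intro w q hw hq
    have hs := shift w q hq
    constructor
    · intro h0
      have h4 := hs w
      rw [h0, add_zero, sub_zero, dl_self, dl_ne (w := -w)] at h4
      · omega
      · intro h; apply hw
        linear_combination (1 / 2 : ℂ) * h
    · intro h0
      apply hnp
      refine ⟨2 * q, ?_, fun x => ?_⟩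
      · rw [h0]; simpa using hw
      · rw [hs x, h0, show w - 2 * w = -w by ring]; ring
  have pair : ∀ w q w' q', w ≠ 0 → w' ≠ 0 → w ≠ w' → Rot (f + dl w) q (-1) →
      Rot (f + dl w') q' (-1) → 2 * q + 2 * q' = w + w' := by
    intro w q w' q' hw hw' hne hq hq'
    have hs := shift w q hq
    have hs' := shift w' q' hq'
    have b := basic w q hw hq
    have b' := basic w' q' hw' hq'
    have e1 := hs (-w' + 2 * q')
    have e2 := hs' (-w')
    have e3 := hs' (-w' + 2 * q)
    have e4 := hs (-w')
    rw [show -w' + 2 * q' + 2 * q = -w' + 2 * q + 2 * q' by ring] at e1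
    rw [dl_self] at e2
    rw [dl_ne (w := -w') (x := -w' + 2 * q) (by
      intro h; exact b.1 (by linear_combination h))] at e3
    rw [dl_ne (w := -w) (x := -w') (by
      intro h; exact hne (by linear_combination h))] at e4
    rw [dl_ne (w := w' - 2 * q') (x := -w') (by
      intro h; exact b'.2 (by linear_combination h))] at e2
    by_contra hcon
    rw [dl_ne (w := w - 2 * q) (x := -w' + 2 * q') (by
      intro h; exact hcon (by linear_combination h))] at e1
    have n1 := dl_nonneg (-w) (-w' + 2 * q')
    have n2 := dl_nonneg (w' - 2 * q') (-w' + 2 * q)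
    have n3 := dl_nonneg (w - 2 * q) (-w')
    omega
  obtain ⟨q₁, hq₁⟩ := k1
  obtain ⟨q₂, hq₂⟩ := k2
  obtain ⟨q₃, hq₃⟩ := k3
  have s12 := pair w₁ q₁ w₂ q₂ h1 h2 h12 hq₁ hq₂
  have s13 := pair w₁ q₁ w₃ q₃ h1 h3 h13 hq₁ hq₃
  have s23 := pair w₂ q₂ w₃ q₃ h2 h3 h23 hq₂ hq₃
  have v1 : 2 * q₁ = w₁ := by linear_combination (1 / 2 : ℂ) * (s12 + s13 - s23)
  have v2 : 2 * q₂ = w₂ := by linear_combination (1 / 2 : ℂ) * (s12 + s23 - s13)
  have v3 : 2 * q₃ = w₃ := by linear_combination (1 / 2 : ℂ) * (s13 + s23 - s12)
  -- `h = f - dl 0` is periodic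
  have per : ∀ w q, 2 * q = w → Rot (f + dl w) q (-1) → ∀ x, (f - dl 0) (x + w) = (f - dl 0) x := by
    intro w q hwq hq x
    have hs := shift w q hq x
    rw [hwq] at hs
    simp only [Pi.sub_apply]
    have h4 : dl 0 (x + w) = dl (-w) x := dl_congr (by
      constructor
      · intro h; linear_combination h
      · intro h; linear_combination h)
    rw [h4, hs, sub_self]; ring
  have rel : ∀ w q w', w ≠ 0 → 2 * q = w → Rot (f + dl w) q (-1) → HasSym (f + dl w + dl w') →
      Rel w w' := by
    intro w q w' hw hwq hq hs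
    apply rel_of_hasSym
    obtain ⟨ω, b, hω, hne, hinv⟩ := hs
    have hdec : f + dl w + dl w' = (f - dl 0) + (dl 0 + dl w + dl w') := by abel
    rw [hdec] at hinv
    have hfin : (support (dl 0 + dl w + dl w')).Finite :=
      fin_add (fin_add (dl_fin _) (dl_fin _)) (dl_fin _)
    have hinvh : Inv (f - dl 0) ω b := by
      refine inv_of_per hw (per w q hwq hq) (ne_zero_of_norm hω) ?_
      have hω0 := ne_zero_of_norm hω
      refine (hfin.union (hfin.preimage (f := fun x => ω * x + b) ?_)).subset ?_
      · intro x _ y _ hxy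
        simp only at hxy
        exact mul_left_cancel₀ hω0 (add_right_cancel hxy)
      · intro x hx
        by_contra hcon
        apply hx
        rw [mem_union, not_or, mem_preimage, notMem_support, notMem_support] at hcon
        have h4 : (f - dl 0) (ω * x + b) + (dl 0 + dl w + dl w') (ω * x + b) =
          (f - dl 0) x + (dl 0 + dl w + dl w') x := hinv x
        rw [hcon.1, hcon.2, add_zero, add_zero] at h4
        exact h4
    refine ⟨ω, b, hω, hne, fun x => ?_⟩
    have h4 : (f - dl 0) (ω * x + b) + (dl 0 + dl w + dl w') (ω * x + b) =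
      (f - dl 0) x + (dl 0 + dl w + dl w') x := hinv x
    rw [hinvh x] at h4
    exact add_left_cancel h4
  exact no_three' h1 h2 h3 h12 h13 h23 (rel w₁ q₁ w₂ h1 v1 hq₁ p12)
    (rel w₁ q₁ w₃ h1 v1 hq₁ p13) (rel w₂ q₂ w₃ h2 v2 hq₂ p23)

end Pool.Agent.MP_8e2340_co
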