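import Pool.Agent.MP_8e2340_co.Plane

/-!
# Every function on the plane can be made asymmetric by changing it on a given four point set
-/

namespace Pool.Agent.MP_8e2340_co

open Function Set

/-- the indicator function of a finite set -/
noncomputable def ind (S : Finset ℂ) : ℂ → ℤ := by
  classical
  exact fun x => if x ∈ S then 1 else 0

lemma ind_empty : ind ∅ = 0 := by funext x; simp [ind]

lemma ind_insert {w : ℂ} {S : Finset ℂ} (h : w ∉ S) : ind (insert w S) = ind S + dl w := by
  classical
  funext x
  simp only [ind, dl, Pi.add_apply, Finset.mem_insert]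
  by_cases h1 : x = w
  · subst h1; simp [h]
  · simp [h1]

lemma ind_singleton (w : ℂ) : ind {w} = dl w := by
  funext x; simp [ind, dl]

lemma ind_pair {w w' : ℂ} (h : w ≠ w') : ind {w, w'} = dl w + dl w' := by
  rw [ind_insert (by simpa using h), ind_singleton]; abel

lemma ind_triple {u w w' : ℂ} (h : w ≠ w') (h1 : u ≠ w) (h2 : u ≠ w') :
    ind {u, w, w'} = dl u + dl w + dl w' := by
  rw [ind_insert (by simp [h1, h2]), ind_pair h]; abel

lemma ind_fin (S : Finset ℂ) : (support (ind S)).Finite := by
  refine (Finset.finite_toSet S).subset fun x hx => ?_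
  by_contra h
  apply hx
  simp only [Finset.mem_coe] at h
  simp [ind, h]

lemma ind_inj {S S' : Finset ℂ} (h : ind S = ind S') : S = S' := by
  ext x
  have h1 := congrFun h x
  by_cases h2 : x ∈ S <;> by_cases h3 : x ∈ S' <;> simp_all [ind]

lemma ind_sdiff {S W : Finset ℂ} (h : S ⊆ W) : ind (W \ S) = ind W - ind S := by
  classical
  funext x
  simp only [ind, Pi.sub_apply, Finset.mem_sdiff]
  by_cases h1 : x ∈ S
  · simp [h1, h h1]
  · simp [h1]

lemma hasSym_neg {f : ℂ → ℤ} (h : HasSym f) : HasSym (-f) := by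
  obtain ⟨ω, b, hω, hne, hinv⟩ := h
  exact ⟨ω, b, hω, hne, fun x => by simp only [Pi.neg_apply]; rw [hinv x]⟩

lemma per_neg {f : ℂ → ℤ} (h : Per f) : Per (-f) := by
  obtain ⟨t, ht, h⟩ := h
  exact ⟨t, ht, fun x => by simp only [Pi.neg_apply]; rw [h x]⟩

lemma eq_of_per {f : ℂ → ℤ} {S S' : Finset ℂ} (h : Per (f + ind S)) (h' : Per (f + ind S')) :
    S = S' := by
  obtain ⟨t, ht, h⟩ := h
  obtain ⟨t', ht', h'⟩ := h'
  have hk : (support (ind S - ind S')).Finite := fin_sub (ind_fin _) (ind_fin _)
  set k := ind S - ind S' with hkdef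
  have hkf : ∀ x, (f + ind S) x = (f + ind S') x + k x := by
    intro x; simp only [hkdef, Pi.add_apply, Pi.sub_apply]; ring
  have h1 : (fun x => k (x + t') - k x) = 0 := by
    refine zero_of_finite_per (t := t) (fin_sub (sh_fin t' hk) hk) ht fun x => ?_
    have e1 := h x
    have e2 := h (x + t')
    have e3 := h' x
    have e4 := h' (x + t)
    rw [hkf, hkf] at e1 e2
    have e5 : x + t' + t = x + t + t' := by ring
    rw [e5] at e2
    omega
  have h2 : k = 0 := zero_of_finite_per hk ht' fun x => by
    have := congrFun h1 x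
    simp only [Pi.zero_apply] at this
    omega
  exact ind_inj (sub_eq_zero.mp h2)

lemma rot_sh' {f : ℂ → ℤ} {q ω : ℂ} (p : ℂ) (h : Rot f q ω) : Rot (sh p f) (q - p) ω := by
  intro x
  change f (q - p + ω * (x - (q - p)) + p) = f (x + p)
  rw [← h (x + p)]; congr 1; ring

lemma ht_sh {f : ℂ → ℤ} (p : ℂ) (h : HT f) : HT (sh p f) := by
  obtain ⟨q, hq⟩ := h
  exact ⟨_, rot_sh' p hq⟩

lemma per_of_sh {f : ℂ → ℤ} {p : ℂ} (h : Per (sh p f)) : Per f := by
  obtain ⟨t, ht, h⟩ := h
  refine ⟨t, ht, fun x => ?_⟩
  have := h (x - p)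
  change f (x - p + t + p) = f (x - p + p) at this
  rw [sub_add_cancel, show x - p + t + p = x + t by ring] at this
  exact this

lemma half_turn_false' {f : ℂ → ℤ} {p : ℂ} (hf : Rot f p (-1)) (hnp : ¬ Per f) (W : Finset ℂ)
    (hW : W.card = 4) (h1 : ∀ w ∈ W, w ≠ p → HT (f + dl w))
    (h2 : ∀ w ∈ W, ∀ w' ∈ W, w ≠ w' → HasSym (f + dl w + dl w')) : False := by
  have hcard : 2 < (W.erase p).card := by
    have := Finset.pred_card_le_card_erase (s := W) (a := p)
    omega
  obtain ⟨a, ha, b, hb, c, hc, hab, hac, hbc⟩ := Finset.two_lt_card.mp hcard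
  have hf0 : Rot (sh p f) 0 (-1) := by
    have := rot_sh' p hf
    rwa [sub_self] at this
  have key1 : ∀ w ∈ W.erase p, HT (sh p f + dl (w - p)) := by
    intro w hw
    have := ht_sh p (h1 w (Finset.mem_of_mem_erase hw) (Finset.ne_of_mem_erase hw))
    rwa [sh_add, sh_dl] at this
  have key2 : ∀ w ∈ W.erase p, ∀ w' ∈ W.erase p, w ≠ w' →
      HasSym (sh p f + dl (w - p) + dl (w' - p)) := by
    intro w hw w' hw' hne
    have := hasSym_sh p (h2 w (Finset.mem_of_mem_erase hw) w' (Finset.mem_of_mem_erase hw') hne)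
    rwa [sh_add, sh_add, sh_dl, sh_dl] at this
  have hsub : ∀ {x y : ℂ}, x ≠ y → x - p ≠ y - p := by
    intro x y h h'
    exact h (sub_left_injective h')
  refine half_turn_false (f := sh p f) hf0 (fun h => hnp (per_of_sh h))
    (w₁ := a - p) (w₂ := b - p) (w₃ := c - p) (hsub hab) (hsub hac) (hsub hbc)
    (sub_ne_zero.mpr (Finset.ne_of_mem_erase ha)) (sub_ne_zero.mpr (Finset.ne_of_mem_erase hb))
    (sub_ne_zero.mpr (Finset.ne_of_mem_erase hc)) (key1 a ha) (key1 b hb) (key1 c hc)
    (key2 a ha b hb hab) (key2 a ha c hc hac) (key2 b hb c hc hbc)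

/-- finite configurations -/
lemma finite_false {E : ℂ → ℤ} (hE : (support E).Finite) (hE0 : E ≠ 0) (W : Finset ℂ)
    (hW : W.card = 4) (hall : ∀ S ⊆ W, HasSym (E + ind S)) : False := by
  classical
  have s0 : HasSym E := by simpa [ind_empty] using hall ∅ (Finset.empty_subset _)
  have s1 : ∀ w ∈ W, HasSym (E + dl w) := by
    intro w hw
    have := hall {w} (by simpa using hw)
    rwa [ind_singleton] at this
  have s2 : ∀ w ∈ W, ∀ w' ∈ W, w ≠ w' → HasSym (E + dl w + dl w') := by
    intro w hw w' hw' hne
    have := hall {w, w'} (by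
      intro x hx
      simp only [Finset.mem_insert, Finset.mem_singleton] at hx
      rcases hx with rfl | rfl <;> assumption)
    rwa [ind_pair hne, ← add_assoc] at this
  have s3 : ∀ u ∈ W, ∀ w ∈ W, ∀ w' ∈ W, w ≠ w' → u ≠ w → u ≠ w' →
      HasSym (E + dl u + dl w + dl w') := by
    intro u hu w hw w' hw' hne h1 h2
    have := hall {u, w, w'} (by
      intro x hx
      simp only [Finset.mem_insert, Finset.mem_singleton] at hx
      rcases hx with rfl | rfl | rfl <;> assumption)
    rwa [ind_triple hne h1 h2, ← add_assoc, ← add_assoc] at this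
  by_cases hHT : HT E
  · obtain ⟨p, hp⟩ := hHT
    by_cases hall1 : ∀ w ∈ W, w ≠ p → HT (E + dl w)
    · exact half_turn_false' hp (not_per_of_finite hE hE0) W hW hall1 s2
    · push Not at hall1
      obtain ⟨u, hu, -, hnht⟩ := hall1
      refine tri_false (F := E + dl u) (fin_add hE (dl_fin u)) hnht (s1 u hu) W hW
        (fun x => if x = u then -1 else 1) (fun x => by
          by_cases h : x = u
          · right; simp [h]
          · left; simp [h]) ?_ ?_
      · intro w hw
        by_cases h : w = u
        · subst h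
          simpa using s0
        · simp only [h, if_false, one_smul]
          exact s2 u hu w hw (Ne.symm h)
      · intro w hw w' hw' hne
        by_cases h : w = u
        · subst h
          have h' : w' ≠ w := Ne.symm hne
          simp only [h', if_false, if_true, one_smul]
          have : E + dl w + (-1 : ℤ) • dl w + dl w' = E + dl w' := by
            rw [neg_one_smul]; abel
          rw [this]; exact s1 w' hw'
        · by_cases h' : w' = u
          · subst h'
            simp only [h, if_false, if_true, one_smul]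
            have : E + dl w' + dl w + (-1 : ℤ) • dl w' = E + dl w := by
              rw [neg_one_smul]; abel
            rw [this]; exact s1 w hw
          · simp only [h, h', if_false, one_smul]
            exact s3 u hu w hw w' hw' hne (Ne.symm h) (Ne.symm h')
  · refine tri_false (F := E) hE hHT s0 W hW (fun _ => 1) (fun _ => Or.inl rfl) ?_ ?_
    · intro w hw
      simpa using s1 w hw
    · intro w hw w' hw' hne
      simpa using s2 w hw w' hw' hne

lemma centre_ne {f : ℂ → ℤ} {p q ω ω' w : ℂ} (h1 : Rot f p ω) (h2 : Rot (f + dl w) q ω')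
    (hω1 : ω ≠ 1) (hω1' : ω' ≠ 1) (hw : w ≠ p) : q ≠ p := by
  rintro rfl
  -- evaluate both compositions at `w`
  have e1 : f (q + ω * (q + ω' * (w - q) - q)) = f (q + ω' * (w - q)) := h1 _
  have e2 := h2 w
  have e3 := h2 (q + ω * (w - q))
  have e4 : f (q + ω * (w - q)) = f w := h1 w
  have n1 : q + ω' * (w - q) ≠ w := by
    intro h
    have : (ω' - 1) * (w - q) = 0 := by linear_combination h
    rcases mul_eq_zero.mp this with h' | h'
    · exact hω1' (sub_eq_zero.mp h')
    · exact hw (sub_eq_zero.mp h')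
  have n2 : q + ω * (w - q) ≠ w := by
    intro h
    have : (ω - 1) * (w - q) = 0 := by linear_combination h
    rcases mul_eq_zero.mp this with h' | h'
    · exact hω1 (sub_eq_zero.mp h')
    · exact hw (sub_eq_zero.mp h')
  simp only [Pi.add_apply] at e2 e3
  rw [dl_self, dl_ne n1] at e2
  rw [dl_ne n2] at e3
  have e5 : q + ω' * (q + ω * (w - q) - q) = q + ω * (q + ω' * (w - q) - q) := by ring
  rw [e5] at e3
  have n3 := dl_nonneg w (q + ω * (q + ω' * (w - q) - q))
  omega

lemma general_false {f : ℂ → ℤ} (hf : ¬ Per f) (W : Finset ℂ) (hW : W.card = 4)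
    (hfw : ∀ w ∈ W, ¬ Per (f + dl w)) (hall : ∀ S ⊆ W, HasSym (f + ind S)) : False := by
  classical
  have s0 : HasSym f := by simpa [ind_empty] using hall ∅ (Finset.empty_subset _)
  have s1 : ∀ w ∈ W, HasSym (f + dl w) := by
    intro w hw
    have := hall {w} (by simpa using hw)
    rwa [ind_singleton] at this
  have s2 : ∀ w ∈ W, ∀ w' ∈ W, w ≠ w' → HasSym (f + dl w + dl w') := by
    intro w hw w' hw' hne
    have := hall {w, w'} (by
      intro x hx
      simp only [Finset.mem_insert, Finset.mem_singleton] at hx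
      rcases hx with rfl | rfl <;> assumption)
    rwa [ind_pair hne, ← add_assoc] at this
  obtain ⟨p, ω, hω, hω1, hrot⟩ := rot_of_hasSym s0 hf
  by_cases hcase : ω = -1 ∧ ∀ w ∈ W, w ≠ p → HT (f + dl w)
  · obtain ⟨h1, h2⟩ := hcase
    subst h1
    exact half_turn_false' hrot hf W hW h2 s2
  · -- a neighbour with a different centre, one of the two rotations not being a half-turn
    obtain ⟨w, hw, hwp, q, ω', hω', hω1', hrot', hor⟩ : ∃ w ∈ W, w ≠ p ∧ ∃ q ω' : ℂ, ‖ω'‖ = 1 ∧
        ω' ≠ 1 ∧ Rot (f + dl w) q ω' ∧ (ω ≠ -1 ∨ ω' ≠ -1) := by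
      by_cases h1 : ω = -1
      · have h2 : ¬ ∀ w ∈ W, w ≠ p → HT (f + dl w) := fun h => hcase ⟨h1, h⟩
        push Not at h2
        obtain ⟨w, hw, hwp, hnht⟩ := h2
        obtain ⟨q, ω', a1, a2, a3⟩ := rot_of_hasSym (s1 w hw) (hfw w hw)
        refine ⟨w, hw, hwp, q, ω', a1, a2, a3, Or.inr ?_⟩
        rintro rfl
        exact hnht ⟨q, a3⟩
      · obtain ⟨w, hw⟩ : (W.erase p).Nonempty := by
          rw [← Finset.card_pos]
          have := Finset.pred_card_le_card_erase (s := W) (a := p)
          omega
        have hw' := Finset.mem_of_mem_erase hw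
        obtain ⟨q, ω', a1, a2, a3⟩ := rot_of_hasSym (s1 w hw') (hfw w hw')
        exact ⟨w, hw', Finset.ne_of_mem_erase hw, q, ω', a1, a2, a3, Or.inl h1⟩
    have hqp : q ≠ p := centre_ne hrot hrot' hω1 hω1' hwp
    have q1 : QF f (rotE p ω (ne_zero_of_norm hω)) := QF_of_rot _ hrot
    have q2 : QF f (rotE q ω' (ne_zero_of_norm hω')) := by
      have h3 := QF_add (QF_of_rot (ne_zero_of_norm hω') hrot')
        (g := (-1 : ℤ) • dl w) (fin_smul _ (dl_fin w))
      have h4 : f + dl w + (-1 : ℤ) • dl w = f := by rw [neg_one_smul]; abel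
      rwa [h4] at h3
    have ht : (1 - ω) * (1 - ω') * (p - q) ≠ 0 :=
      mul_ne_zero (mul_ne_zero (sub_ne_zero.mpr (Ne.symm hω1)) (sub_ne_zero.mpr (Ne.symm hω1')))
        (sub_ne_zero.mpr (Ne.symm hqp))
    have hB := quasi_translation _ _ q1 q2
    obtain ⟨g, hgper, hfg⟩ : ∃ g : ℂ → ℤ, (∀ x, g (x + (1 - ω) * (1 - ω') * (p - q)) = g x) ∧
        {x | f x ≠ g x}.Finite := by
      rcases hor with h | h
      · exact exists_periodic_part' ht hB hω hω1 h q1
      · exact exists_periodic_part' ht hB hω' hω1' h q2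
    have hEfin : (support (f - g)).Finite := by
      refine hfg.subset fun x hx => ?_
      intro h
      apply hx
      simp [h]
    refine finite_false (E := f - g) hEfin ?_ W hW ?_
    · intro h
      apply hf
      have : f = g := sub_eq_zero.mp h
      exact ⟨_, ht, fun x => by rw [this]; exact hgper x⟩
    · intro S hS
      obtain ⟨η, b, hη, hne, hinv⟩ := hall S hS
      have hdec : ∀ x, (f + ind S) x = g x + (f - g + ind S) x := by
        intro x; simp only [Pi.add_apply, Pi.sub_apply]; ring
      have hfin : (support (f - g + ind S)).Finite := fin_add hEfin (ind_fin S)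
      have hη0 := ne_zero_of_norm hη
      have hg : Inv g η b := by
        refine inv_of_per ht hgper hη0 ?_
        refine (hfin.union (hfin.preimage (f := fun x => η * x + b) ?_)).subset ?_
        · intro x _ y _ hxy
          simp only at hxy
          exact mul_left_cancel₀ hη0 (add_right_cancel hxy)
        · intro x hx
          by_contra hcon
          apply hx
          rw [mem_union, not_or, mem_preimage, notMem_support, notMem_support] at hcon
          have h4 := hinv x
          rw [hdec, hdec, hcon.1, hcon.2, add_zero, add_zero] at h4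
          exact h4
      refine ⟨η, b, hη, hne, fun x => ?_⟩
      have h4 := hinv x
      rw [hdec, hdec, hg x] at h4
      exact add_left_cancel h4

/-- **Main theorem.** For every integer valued function on the plane and every four point set `W`
there is `S ⊆ W` such that `f + 1_S` has no nontrivial symmetry in `SE(2)`. -/
theorem main (f : ℂ → ℤ) (W : Finset ℂ) (hW : W.card = 4) : ∃ S ⊆ W, ¬ HasSym (f + ind S) := by
  classical
  by_contra hcon
  push Not at hcon
  by_cases hgood : ¬ Per f ∧ ∀ w ∈ W, ¬ Per (f + dl w)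
  · exact general_false hgood.1 W hW hgood.2 hcon
  · obtain ⟨S₀, hS₀, hcard, hper⟩ : ∃ S₀ ⊆ W, S₀.card ≤ 1 ∧ Per (f + ind S₀) := by
      by_cases h1 : Per f
      · exact ⟨∅, Finset.empty_subset _, by simp, by simpa [ind_empty] using h1⟩
      · have h2 : ¬ ∀ w ∈ W, ¬ Per (f + dl w) := fun h => hgood ⟨h1, h⟩
        push Not at h2
        obtain ⟨w, hw, hp⟩ := h2
        exact ⟨{w}, by simpa using hw, by simp, by simpa [ind_singleton] using hp⟩
    have key : ∀ S ⊆ W, -(f + ind W) + ind S = -(f + ind (W \ S)) := by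
      intro S hS
      rw [ind_sdiff hS]; abel
    have hnp : ∀ S ⊆ W, S.card ≤ 1 → ¬ Per (-(f + ind W) + ind S) := by
      intro S hS hc h
      rw [key S hS] at h
      have h' := per_neg h
      rw [neg_neg] at h'
      have h3 := eq_of_per h' hper
      have h4 := Finset.card_sdiff_add_card_eq_card hS
      rw [h3] at h4
      omega
    refine general_false (f := -(f + ind W)) ?_ W hW ?_ ?_
    · have := hnp ∅ (Finset.empty_subset _) (by simp)
      simpa [ind_empty] using this
    · intro w hw
      have := hnp {w} (by simpa using hw) (by simp)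
      rwa [ind_singleton] at this
    · intro S hS
      rw [key S hS]
      exact hasSym_neg (hcon _ Finset.sdiff_subset)

end Pool.Agent.MP_8e2340_co
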