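import Pool.Agent.MP_8e2340_co.HalfTurn

/-!
# The general case
-/

namespace Pool.Agent.MP_8e2340_co

open Function Set

/-! ### Quasi-symmetries -/

lemma app_inv (σ : Equiv.Perm ℂ) (x : ℂ) : σ (σ⁻¹ x) = x := σ.apply_symm_apply x

/-- `f ∘ σ` and `f` differ at finitely many points only -/
def QF (f : ℂ → ℤ) (σ : Equiv.Perm ℂ) : Prop := {x | f (σ x) ≠ f x}.Finite

lemma QF.mul {f : ℂ → ℤ} {σ τ : Equiv.Perm ℂ} (h1 : QF f σ) (h2 : QF f τ) : QF f (σ * τ) := by
  refine ((h1.preimage (f := τ) τ.injective.injOn).union h2).subset ?_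
  intro x hx
  by_contra hcon
  apply hx
  simp only [mem_union, mem_preimage, mem_ofPred_eq, not_or, not_not] at hcon
  rw [Equiv.Perm.mul_apply, hcon.1, hcon.2]

lemma QF.inv {f : ℂ → ℤ} {σ : Equiv.Perm ℂ} (h1 : QF f σ) : QF f σ⁻¹ := by
  refine (h1.preimage (f := (σ⁻¹ : Equiv.Perm ℂ)) (σ⁻¹).injective.injOn).subset ?_
  intro x hx hcon
  apply hx
  rw [← hcon, app_inv]

/-- the rotation as a permutation -/
noncomputable def rotE (p ω : ℂ) (h : ω ≠ 0) : Equiv.Perm ℂ where
  toFun x := p + ω * (x - p)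
  invFun y := p + ω⁻¹ * (y - p)
  left_inv x := by field_simp; ring
  right_inv y := by field_simp; ring

lemma rotE_apply (p ω : ℂ) (h : ω ≠ 0) (x : ℂ) : rotE p ω h x = p + ω * (x - p) := rfl

lemma QF_of_rot {f : ℂ → ℤ} {p ω : ℂ} (h0 : ω ≠ 0) (h : Rot f p ω) : QF f (rotE p ω h0) := by
  have : {x | f (rotE p ω h0 x) ≠ f x} = ∅ := by
    ext x
    simp only [mem_ofPred_eq, mem_empty_iff_false, iff_false, not_not]
    exact h x
  unfold QF
  rw [this]; exact finite_empty

lemma QF_add {f g : ℂ → ℤ} {σ : Equiv.Perm ℂ} (hf : QF f σ) (hg : (support g).Finite) :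
    QF (f + g) σ := by
  refine (hf.union (hg.union (hg.preimage (f := σ) σ.injective.injOn))).subset ?_
  intro x hx
  by_contra hcon
  apply hx
  simp only [mem_union, mem_preimage, mem_ofPred_eq, mem_support, not_or, not_not] at hcon
  simp only [Pi.add_apply]
  rw [hcon.1, hcon.2.1, hcon.2.2]

/-- two quasi-rotations with different centres give a quasi-translation -/
lemma quasi_translation {f : ℂ → ℤ} {p q ω ω' : ℂ} (h0 : ω ≠ 0) (h0' : ω' ≠ 0)
    (h1 : QF f (rotE p ω h0)) (h2 : QF f (rotE q ω' h0')) :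
    {x | f (x + (1 - ω) * (1 - ω') * (p - q)) ≠ f x}.Finite := by
  have h3 := (h1.mul h2).mul (h2.mul h1).inv
  refine h3.subset ?_
  intro x hx hcon
  apply hx
  rw [← hcon]
  congr 1
  set y := (rotE q ω' h0' * rotE p ω h0)⁻¹ x with hy
  have hxy : x = (rotE q ω' h0' * rotE p ω h0) y := by
    rw [hy, app_inv]
  rw [Equiv.Perm.mul_apply, ← hy]
  rw [hxy]
  simp only [Equiv.Perm.mul_apply, rotE_apply]
  ring

/-! ### Extracting the periodic part -/

lemma const_along {f : ℂ → ℤ} {t x : ℂ} (h : ∀ i : ℕ, f (x + (i : ℂ) * t + t) = f (x + (i : ℂ) * t)) :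
    ∀ n : ℕ, f (x + (n : ℂ) * t) = f x := by
  intro n
  induction n with
  | zero => simp
  | succ n ih =>
    rw [← ih, ← h n]; congr 1; push_cast; ring

lemma const_along_lt {f : ℂ → ℤ} {t x : ℂ} (n : ℕ)
    (h : ∀ i : ℕ, i < n → f (x + (i : ℂ) * t + t) = f (x + (i : ℂ) * t)) :
    f (x + (n : ℂ) * t) = f x := by
  induction n with
  | zero => simp
  | succ n ih =>
    rw [← ih fun i hi => h i (by omega), ← h n (by omega)]; congr 1; push_cast; ring

lemma exists_periodic_part (f : ℂ → ℤ) (t t' : ℂ) (L L' : ℂ →+ ℝ) (hLt : L t = 1)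
    (hLt' : L t' = 0) (hLt2 : L' t = 0) (hLt2' : L' t' = 1)
    (hB : {x | f (x + t) ≠ f x}.Finite) (hB' : {x | f (x + t') ≠ f x}.Finite) :
    ∃ g : ℂ → ℤ, (∀ x, g (x + t) = g x) ∧ {x | f x ≠ g x}.Finite := by
  classical
  -- a common bound
  obtain ⟨R, hR⟩ : ∃ R : ℝ, ∀ x, (f (x + t) ≠ f x ∨ f (x + t') ≠ f x) →
      L x ≤ R ∧ -R ≤ L x ∧ L' x ≤ R := by
    have hfin := hB.union hB'
    obtain ⟨R1, h1⟩ := (hfin.image L).bddAbove
    obtain ⟨R2, h2⟩ := (hfin.image (fun x => - L x)).bddAbove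
    obtain ⟨R3, h3⟩ := (hfin.image L').bddAbove
    refine ⟨max R1 (max R2 R3), fun x hx => ?_⟩
    have hx' : x ∈ {x | f (x + t) ≠ f x} ∪ {x | f (x + t') ≠ f x} := hx
    have a1 := h1 (mem_image_of_mem L hx')
    have a2 := h2 (mem_image_of_mem (fun x => - L x) hx')
    have a3 := h3 (mem_image_of_mem L' hx')
    refine ⟨a1.trans (le_max_left _ _), ?_, a3.trans ((le_max_right _ _).trans (le_max_right _ _))⟩
    have : -L x ≤ max R1 (max R2 R3) := a2.trans ((le_max_left _ _).trans (le_max_right _ _))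
    linarith
  have hLn : ∀ (x : ℂ) (n : ℕ), L (x + (n : ℂ) * t) = L x + n := by
    intro x n
    rw [map_add, ← nsmul_eq_mul, map_nsmul, hLt]; simp
  have hLn' : ∀ (x : ℂ) (n : ℕ), L (x + (n : ℂ) * t') = L x := by
    intro x n
    rw [map_add, ← nsmul_eq_mul, map_nsmul, hLt']; simp
  have hL2n : ∀ (x : ℂ) (n : ℕ), L' (x + (n : ℂ) * t) = L' x := by
    intro x n
    rw [map_add, ← nsmul_eq_mul, map_nsmul, hLt2]; simp
  have hL2n' : ∀ (x : ℂ) (n : ℕ), L' (x + (n : ℂ) * t') = L' x + n := by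
    intro x n
    rw [map_add, ← nsmul_eq_mul, map_nsmul, hLt2']; simp
  have hLz : ∀ (x : ℂ) (n : ℤ), L (x + (n : ℂ) * t) = L x + n := by
    intro x n
    rw [map_add, ← zsmul_eq_mul, map_zsmul, hLt]; simp
  have hL2z : ∀ (x : ℂ) (n : ℤ), L' (x + (n : ℂ) * t) = L' x := by
    intro x n
    rw [map_add, ← zsmul_eq_mul, map_zsmul, hLt2]; simp
  -- constancy in the various regions
  have cA : ∀ x, R < L' x → ∀ n : ℕ, f (x + (n : ℂ) * t) = f x := by
    intro x hx
    apply const_along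
    intro i
    by_contra hcon
    have := (hR _ (Or.inl hcon)).2.2
    rw [hL2n] at this
    linarith
  have cB : ∀ x, R < L x → ∀ n : ℕ, f (x + (n : ℂ) * t') = f x := by
    intro x hx
    apply const_along
    intro i
    by_contra hcon
    have := (hR _ (Or.inr hcon)).1
    rw [hLn'] at this
    linarith
  have cB' : ∀ x, L x < -R → ∀ n : ℕ, f (x + (n : ℂ) * t') = f x := by
    intro x hx
    apply const_along
    intro i
    by_contra hcon
    have := (hR _ (Or.inr hcon)).2.1
    rw [hLn'] at this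
    linarith
  have cC : ∀ x, R < L x → ∀ n : ℕ, f (x + (n : ℂ) * t) = f x := by
    intro x hx
    apply const_along
    intro i
    by_contra hcon
    have := (hR _ (Or.inl hcon)).1
    rw [hLn] at this
    have : (0 : ℝ) ≤ i := Nat.cast_nonneg i
    linarith
  -- the periodic part
  let N : ℂ → ℤ := fun x => ⌊R - L x⌋ + 1
  have hN : ∀ x, R < L (x + (N x : ℂ) * t) := by
    intro x
    rw [hLz]
    have := Int.lt_floor_add_one (R - L x)
    simp only [N]
    push_cast
    linarith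
  refine ⟨fun x => f (x + (N x : ℂ) * t), ?_, ?_⟩
  · intro x
    have h1 : N (x + t) = N x - 1 := by
      simp only [N]
      rw [map_add, hLt, show R - (L x + 1) = R - L x - 1 by ring, Int.floor_sub_one]
      ring
    simp only
    rw [h1]
    congr 1; push_cast; ring
  · let K : ℕ := (⌊2 * R⌋ + 1).toNat
    refine ((hB.prod (Finset.finite_toSet (Finset.range (K + 1)))).image
      (fun p : ℂ × ℕ => p.1 - (p.2 : ℂ) * t)).subset ?_
    intro x hx
    simp only [mem_ofPred_eq] at hx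
    -- `L x ≤ R`
    have hx1 : L x ≤ R := by
      by_contra hcon
      push Not at hcon
      have hN0 : N x ≤ 0 := by
        have : ⌊R - L x⌋ < 0 := by
          rw [Int.floor_lt]; push_cast; linarith
        simp only [N]; omega
      apply hx
      have h1 := cC (x + (N x : ℂ) * t) (hN x) (-(N x)).toNat
      have h2 : (((-(N x)).toNat : ℕ) : ℂ) = -(N x : ℂ) := by
        have : (((-(N x)).toNat : ℕ) : ℤ) = -(N x) := Int.toNat_of_nonneg (by omega)
        exact_mod_cast congrArg (Int.cast : ℤ → ℂ) this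
      rw [h2, show x + (N x : ℂ) * t + -(N x : ℂ) * t = x by ring] at h1
      exact h1
    have hN1 : 1 ≤ N x := by
      have : 0 ≤ ⌊R - L x⌋ := Int.floor_nonneg.mpr (by linarith)
      simp only [N]; omega
    obtain ⟨n, hn⟩ : ∃ n : ℕ, (n : ℤ) = N x := ⟨(N x).toNat, Int.toNat_of_nonneg (by omega)⟩
    have hnC : (N x : ℂ) = (n : ℂ) := by rw [← hn]; simp
    have hNx := hN x
    rw [hnC] at hx hNx
    -- `- R ≤ L x`
    have hx2 : -R ≤ L x := by
      by_contra hcon
      push Not at hcon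
      apply hx
      obtain ⟨j, hj⟩ := exists_nat_gt (R - L' x)
      have e1 := cB' x hcon j
      have e2 := cA (x + (j : ℂ) * t') (by rw [hL2n']; linarith) n
      have e3 := cB (x + (n : ℂ) * t) hNx j
      rw [← e3, ← e1, ← e2]
      congr 1; ring
    have hex : ∃ i : ℕ, i < n ∧ f (x + (i : ℂ) * t + t) ≠ f (x + (i : ℂ) * t) := by
      by_contra hcon
      push Not at hcon
      exact hx (const_along_lt n hcon).symm
    obtain ⟨i, hi, hbad⟩ := hex
    have hnK : n ≤ K := by
      have h1 : ⌊R - L x⌋ ≤ ⌊2 * R⌋ := Int.floor_le_floor (by linarith)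
      have h2 : (n : ℤ) ≤ ⌊2 * R⌋ + 1 := by rw [hn]; simp only [N]; omega
      simp only [K]; omega
    refine ⟨(x + (i : ℂ) * t, i), ⟨hbad, ?_⟩, ?_⟩
    · simp only [Finset.coe_range, mem_Iio]; omega
    · simp only; ring

lemma exists_periodic_part' {f : ℂ → ℤ} {t : ℂ} (ht : t ≠ 0) (hB : {x | f (x + t) ≠ f x}.Finite)
    {p ω : ℂ} (hω : ‖ω‖ = 1) (hω1 : ω ≠ 1) (hω2 : ω ≠ -1) (hrot : QF f (rotE p ω (ne_zero_of_norm hω))) :
    ∃ g : ℂ → ℤ, (∀ x, g (x + t) = g x) ∧ {x | f x ≠ g x}.Finite := by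
  have hω0 := ne_zero_of_norm hω
  have him : ω.im ≠ 0 := by
    intro h0
    have h1 : ω.re ^ 2 = 1 := by
      have := Complex.sq_norm ω
      rw [hω, Complex.normSq_apply, h0] at this
      nlinarith
    have h2 : (ω.re - 1) * (ω.re + 1) = 0 := by linear_combination h1
    rcases mul_eq_zero.mp h2 with h3 | h3
    · exact hω1 (Complex.ext (by simp; linarith) (by simp [h0]))
    · exact hω2 (Complex.ext (by simp; linarith) (by simp [h0]))
  let L : ℂ →+ ℝ := AddMonoidHom.mk' (fun x => (x / t).re - (x / t).im * (ω.re / ω.im)) (by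
    intro a b; simp only [add_div, Complex.add_re, Complex.add_im]; ring)
  let L' : ℂ →+ ℝ := AddMonoidHom.mk' (fun x => (x / t).im / ω.im) (by
    intro a b; simp only [add_div, Complex.add_im])
  refine exists_periodic_part f t (ω * t) L L' ?_ ?_ ?_ ?_ hB ?_
  · simp [L, div_self ht]
  · simp only [L, AddMonoidHom.mk'_apply, mul_div_assoc, div_self ht, mul_one]
    field_simp; ring
  · simp [L', div_self ht]
  · simp only [L', AddMonoidHom.mk'_apply, mul_div_assoc, div_self ht, mul_one]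
    exact div_self him
  · -- `f (x + ω t) = f x` up to finitely many points
    have h1 : QF f (Equiv.addRight t) := hB
    have h2 := (hrot.mul h1).mul hrot.inv
    refine h2.subset ?_
    intro x hx hcon
    apply hx
    rw [← hcon]
    congr 1
    set y := (rotE p ω hω0)⁻¹ x with hy
    have hxy : x = rotE p ω hω0 y := by rw [hy, app_inv]
    rw [Equiv.Perm.mul_apply, Equiv.Perm.mul_apply, ← hy, hxy, Equiv.coe_addRight, rotE_apply,
      rotE_apply]
    ring

end Pool.Agent.MP_8e2340_co
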