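import Pool.Agent.MP_8e2340_co.Triangle

/-!
# A triangle cannot be the base configuration
-/

namespace Pool.Agent.MP_8e2340_co

open Function Set

lemma M_pair {F : ℂ → ℤ} (hF : (support F).Finite) (e₁ e₂ : ℤ) (w₁ w₂ : ℂ) (k : ℕ) :
    M (F + e₁ • dl w₁ + e₂ • dl w₂) k = M F k + e₁ * w₁ ^ k + e₂ * w₂ ^ k := by
  rw [M_add (fin_add hF (fin_smul _ (dl_fin _))) (fin_smul _ (dl_fin _)),
    M_add hF (fin_smul _ (dl_fin _)), M_smul (dl_fin _), M_smul (dl_fin _), M_dl, M_dl]

lemma pair_fin {F : ℂ → ℤ} (hF : (support F).Finite) (e₁ e₂ : ℤ) (w₁ w₂ : ℂ) :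
    (support (F + e₁ • dl w₁ + e₂ • dl w₂)).Finite :=
  fin_add (fin_add hF (fin_smul _ (dl_fin _))) (fin_smul _ (dl_fin _))

section

variable {F : ℂ → ℤ} (hF : (support F).Finite) {c : ℤ} (hc : c = 1 ∨ c = -1)
  {a a' : ℂ} (ha : a ≠ 0) (ha' : a' ≠ 0) (hQ : a ^ 2 + a * a' + a' ^ 2 = 0)
  (h0 : M F 0 = 3 * c) (h1 : M F 1 = 0) (h2 : M F 2 = 0) (h3 : M F 3 = 3 * c * a ^ 3)

include hF hc ha ha' hQ h0 h1 h2 h3

lemma no_RR (h : HasSym (F + c • dl (-2 * a) + c • dl (-2 * a'))) : False := by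
  have hn : M (F + c • dl (-2 * a) + c • dl (-2 * a')) 0 ≠ 0 := by
    rw [M_pair hF, h0]
    rcases hc with rfl | rfl <;> norm_num
  have key := moment_criterion (pair_fin hF _ _ _ _) h hn
  simp only [M_pair hF, h0, h1, h2, h3] at key
  rcases key with k | k
  · have : (24 : ℂ) * a * a' = 0 := by
      rcases hc with rfl | rfl <;> push_cast at k <;> linear_combination 16 * hQ - k
    simp [ha, ha'] at this
  · have : (189 : ℂ) * a ^ 3 = 0 := by
      rcases hc with rfl | rfl <;> push_cast at k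
      · linear_combination (168 * a - 96 * a') * hQ - k
      · linear_combination (168 * a - 96 * a') * hQ + k
    simp [ha] at this

omit ha' in
lemma no_VR (h : HasSym (F + (-c) • dl a' + c • dl (-2 * a))) : False := by
  have hn : M (F + (-c) • dl a' + c • dl (-2 * a)) 0 ≠ 0 := by
    rw [M_pair hF, h0]
    rcases hc with rfl | rfl <;> norm_num
  have key := moment_criterion (pair_fin hF _ _ _ _) h hn
  simp only [M_pair hF, h0, h1, h2, h3] at key
  rcases key with k | k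
  · have : (12 : ℂ) * a ^ 2 = 0 := by
      rcases hc with rfl | rfl <;> push_cast at k <;> linear_combination 4 * hQ + k
    simp [ha] at this
  · have h5 : (21 : ℂ) * a ^ 2 * (2 * a' + a) = 0 := by
      rcases hc with rfl | rfl <;> push_cast at k
      · linear_combination (20 * a' + 10 * a) * hQ + k
      · linear_combination (20 * a' + 10 * a) * hQ - k
    have h6 : 2 * a' + a = 0 := by
      rcases mul_eq_zero.mp h5 with h | h
      · simp [ha] at h
      · exact h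
    have h7 : (3 : ℂ) * a ^ 2 = 0 := by
      linear_combination 4 * hQ - (2 * a' + a) * h6
    simp [ha] at h7

omit ha' hQ in
lemma no_V0 {e : ℤ} (he : e = 1 ∨ e = -1) (h : HasSym (F + (-c) • dl a + e • dl 0)) :
    False := by
  have hn : M (F + (-c) • dl a + e • dl 0) 0 ≠ 0 := by
    rw [M_pair hF, h0]
    rcases hc with rfl | rfl <;> rcases he with rfl | rfl <;> norm_num
  have key := moment_criterion (pair_fin hF _ _ _ _) h hn
  simp only [M_pair hF, h0, h1, h2, h3] at key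
  rcases key with k | k
  · have : a ^ 2 = 0 := by
      rcases hc with rfl | rfl <;> rcases he with rfl | rfl <;> push_cast at k
      · linear_combination -(1 / 4 : ℂ) * k
      · linear_combination -(1 / 2 : ℂ) * k
      · linear_combination -(1 / 2 : ℂ) * k
      · linear_combination -(1 / 4 : ℂ) * k
    simp [ha] at this
  · have : a ^ 3 = 0 := by
      rcases hc with rfl | rfl <;> rcases he with rfl | rfl <;> push_cast at k
      · linear_combination (1 / 7 : ℂ) * k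
      · linear_combination -(1 / 3 : ℂ) * k
      · linear_combination (1 / 3 : ℂ) * k
      · linear_combination -(1 / 7 : ℂ) * k
    simp [ha] at this

end

lemma tri_apply_self {ω a : ℂ} (hω : ω ^ 2 + ω + 1 = 0) (ha : a ≠ 0) : tri ω a a = 1 := by
  have hω3 := cube_of hω
  have h1 : ω ≠ 1 := by rintro rfl; norm_num at hω
  have h2 : ω ^ 2 ≠ 1 := by
    intro h
    apply h1
    have h4 : ω ^ 3 = ω := by linear_combination ω * h
    rw [hω3] at h4; exact h4.symm
  unfold tri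
  simp only [Pi.add_apply]
  rw [dl_self, dl_ne, dl_ne]
  · norm_num
  · intro h
    apply h2
    have : (ω ^ 2 - 1) * a = 0 := by linear_combination -h
    rcases mul_eq_zero.mp this with h | h
    · linear_combination h
    · exact absurd h ha
  · intro h
    apply h1
    have : (ω - 1) * a = 0 := by linear_combination -h
    rcases mul_eq_zero.mp this with h | h
    · linear_combination h
    · exact absurd h ha

lemma tri_apply_of_ne {ω a x : ℂ} (h : tri ω a x ≠ 0) : x = a ∨ x = ω * a ∨ x = ω ^ 2 * a := by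
  by_contra hcon
  push Not at hcon
  apply h
  unfold tri
  simp only [Pi.add_apply]
  rw [dl_ne hcon.1, dl_ne hcon.2.1, dl_ne hcon.2.2]; norm_num

lemma tri_rotate {ω : ℂ} (hω : ω ^ 2 + ω + 1 = 0) (a : ℂ) : tri ω (ω * a) = tri ω a := by
  have hω3 := cube_of hω
  have h1 : ω ^ 2 * (ω * a) = a := by linear_combination a * hω3
  have h2 : ω * (ω * a) = ω ^ 2 * a := by ring
  unfold tri
  rw [h1, h2]; abel

lemma tri_eq_of_mem {ω a x : ℂ} (hω : ω ^ 2 + ω + 1 = 0)
    (h : x = a ∨ x = ω * a ∨ x = ω ^ 2 * a) : tri ω x = tri ω a := by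
  rcases h with rfl | rfl | rfl
  · rfl
  · exact tri_rotate hω a
  · have : ω ^ 2 * a = ω * (ω * a) := by ring
    rw [this, tri_rotate hω, tri_rotate hω]

lemma quad_of_mem {ω a x y : ℂ} (hω : ω ^ 2 + ω + 1 = 0)
    (hx : x = a ∨ x = ω * a ∨ x = ω ^ 2 * a) (hy : y = a ∨ y = ω * a ∨ y = ω ^ 2 * a)
    (hxy : x ≠ y) : x ^ 2 + x * y + y ^ 2 = 0 := by
  have h4 : ω ^ 4 + ω ^ 2 + 1 = 0 := by linear_combination (ω ^ 2 - ω + 1) * hω
  rcases hx with rfl | rfl | rfl <;> rcases hy with rfl | rfl | rfl <;>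
    first
    | exact absurd rfl hxy
    | linear_combination (x ^ 2) * hω
    | linear_combination (y ^ 2) * hω
    | linear_combination (x ^ 2) * h4
    | linear_combination (y ^ 2) * h4
    | linear_combination (ω ^ 2 * a ^ 2) * hω

lemma tri_false0 {F : ℂ → ℤ} (hF : (support F).Finite) (hnht : ¬ HT F) {ω : ℂ} (hω : ‖ω‖ = 1)
    (hω1 : ω ≠ 1) (hrot : Rot F 0 ω) (W : Finset ℂ) (hW : W.card = 4) (ε : ℂ → ℤ)
    (hε : ∀ w, ε w = 1 ∨ ε w = -1) (hs1 : ∀ w ∈ W, HasSym (F + ε w • dl w))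
    (hs2 : ∀ w ∈ W, ∀ w' ∈ W, w ≠ w' → HasSym (F + ε w • dl w + ε w' • dl w')) : False := by
  have hcard : 2 < (W.erase 0).card := by
    have := Finset.pred_card_le_card_erase (s := W) (a := 0)
    omega
  have hml : ∀ w ∈ W.erase 0, ω ^ 2 + ω + 1 = 0 ∧ ∃ (a : ℂ) (c : ℤ), a ≠ 0 ∧ (c = 1 ∨ c = -1) ∧
      F = c • tri ω a ∧ ((w = a ∧ ε w = -c) ∨ (w = -2 * a ∧ ε w = c)) := by
    intro w hw
    exact main_local hF hnht hω hω1 hrot (hε w) (Finset.ne_of_mem_erase hw)
      (hs1 w (Finset.mem_of_mem_erase hw))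
  obtain ⟨w₀, hw₀⟩ : (W.erase 0).Nonempty := Finset.card_pos.mp (by omega)
  obtain ⟨hquad, a₀, c, ha₀, hc, hFc, -⟩ := hml w₀ hw₀
  have hω0 := ne_zero_of_norm hω
  have hml' : ∀ w ∈ W.erase 0, ∃ a : ℂ, (a = a₀ ∨ a = ω * a₀ ∨ a = ω ^ 2 * a₀) ∧
      ((w = a ∧ ε w = -c) ∨ (w = -2 * a ∧ ε w = c)) := by
    intro w hw
    obtain ⟨-, a, c', ha, hc', hF', hcase⟩ := hml w hw
    have h1 : c' = c * tri ω a₀ a := by
      have h2 : F a = c' := by rw [hF']; simp [tri_apply_self hquad ha]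
      have h3 : F a = c * tri ω a₀ a := by rw [hFc]; simp
      rw [← h2, h3]
    have h4 : tri ω a₀ a ≠ 0 := by
      intro h
      rw [h, mul_zero] at h1
      omega
    have h5 := tri_apply_of_ne h4
    have h6 : tri ω a₀ a = 1 := by
      rw [← tri_eq_of_mem hquad h5]; exact tri_apply_self hquad ha
    rw [h6, mul_one] at h1
    subst h1
    exact ⟨a, h5, hcase⟩
  have hmem0 : ∀ a, (a = a₀ ∨ a = ω * a₀ ∨ a = ω ^ 2 * a₀) → a ≠ 0 := by
    rintro a (rfl | rfl | rfl)
    · exact ha₀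
    · exact mul_ne_zero hω0 ha₀
    · exact mul_ne_zero (pow_ne_zero _ hω0) ha₀
  have hMF : ∀ k, M F k = c * M (tri ω a₀) k := by
    intro k; rw [hFc, M_smul (tri_fin _ _)]
  have hω3 := cube_of hquad
  have hM0 : M F 0 = 3 * c := by rw [hMF, M_tri]; ring
  have hM1 : M F 1 = 0 := by
    rw [hMF, M_tri]; linear_combination (c * a₀) * hquad
  have hM2 : M F 2 = 0 := by
    rw [hMF, M_tri]; linear_combination (c * a₀ ^ 2 * (ω ^ 2 - ω + 1)) * hquad
  have hM3 : ∀ a, (a = a₀ ∨ a = ω * a₀ ∨ a = ω ^ 2 * a₀) → M F 3 = 3 * c * a ^ 3 := by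
    intro a ha
    have h1 : a ^ 3 = a₀ ^ 3 := by
      rcases ha with rfl | rfl | rfl
      · rfl
      · linear_combination a₀ ^ 3 * hω3
      · linear_combination a₀ ^ 3 * (ω ^ 3 + 1) * hω3
    rw [hMF, M_tri, h1]; linear_combination (c * a₀ ^ 3 * (ω ^ 3 + 2)) * hω3
  by_cases hR : ∃ w ∈ W.erase 0, ∃ a, (a = a₀ ∨ a = ω * a₀ ∨ a = ω ^ 2 * a₀) ∧
      w = -2 * a ∧ ε w = c
  · obtain ⟨w, hw, a, ha, hwa, hεw⟩ := hR
    have hall : ∀ w' ∈ W.erase 0, w' ≠ w → w' = a := by
      intro w' hw' hne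
      obtain ⟨a', ha', hcase⟩ := hml' w' hw'
      by_cases haa : a' = a
      · rcases hcase with ⟨h, -⟩ | ⟨h, -⟩
        · rw [h, haa]
        · exact absurd (by rw [h, haa, hwa]) hne
      · exfalso
        have hQ : a ^ 2 + a * a' + a' ^ 2 = 0 := quad_of_mem hquad ha ha' (Ne.symm haa)
        rcases hcase with ⟨h, he⟩ | ⟨h, he⟩
        · have h1 := hs2 w' (Finset.mem_of_mem_erase hw') w (Finset.mem_of_mem_erase hw) hne
          rw [he, hεw, h, hwa] at h1
          exact no_VR hF hc (hmem0 a ha) hQ hM0 hM1 hM2 (hM3 a ha) h1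
        · have h1 := hs2 w (Finset.mem_of_mem_erase hw) w' (Finset.mem_of_mem_erase hw')
            (Ne.symm hne)
          rw [he, hεw, h, hwa] at h1
          exact no_RR hF hc (hmem0 a ha) (hmem0 a' ha') hQ hM0 hM1 hM2 (hM3 a ha) h1
    have hsub : W.erase 0 ⊆ {w, a} := by
      intro x hx
      by_cases hxw : x = w
      · simp [hxw]
      · simp [hall x hx hxw]
    have h3 := Finset.card_le_card hsub
    have h4 := Finset.card_le_two (a := w) (b := a)
    omega
  · have hV : ∀ w ∈ W.erase 0, (w = a₀ ∨ w = ω * a₀ ∨ w = ω ^ 2 * a₀) ∧ ε w = -c := by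
      intro w hw
      obtain ⟨a, ha, hcase⟩ := hml' w hw
      rcases hcase with ⟨h, he⟩ | ⟨h, he⟩
      · rw [h]; rw [h] at he; exact ⟨ha, he⟩
      · exact absurd ⟨w, hw, a, ha, h, he⟩ hR
    have hsub : W.erase 0 ⊆ {a₀, ω * a₀, ω ^ 2 * a₀} := by
      intro x hx
      simpa using (hV x hx).1
    have h3 := Finset.card_le_card hsub
    have h4 := Finset.card_le_three (a := a₀) (b := ω * a₀) (c := ω ^ 2 * a₀)
    have h0W : (0 : ℂ) ∈ W := by
      by_contra h
      rw [Finset.erase_eq_of_notMem h] at h3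
      omega
    have h5 := hV w₀ hw₀
    have h6 := hs2 w₀ (Finset.mem_of_mem_erase hw₀) 0 h0W (Finset.ne_of_mem_erase hw₀)
    rw [h5.2] at h6
    exact no_V0 hF hc (hmem0 _ h5.1) hM0 hM1 hM2 (hM3 _ h5.1) (hε 0) h6

/-! ### Shifting the origin -/

/-- the function `x ↦ f (x + p)` -/
def sh (p : ℂ) (f : ℂ → ℤ) : ℂ → ℤ := fun x => f (x + p)

lemma sh_add (p : ℂ) (f g : ℂ → ℤ) : sh p (f + g) = sh p f + sh p g := rfl

lemma sh_smul (p : ℂ) (c : ℤ) (f : ℂ → ℤ) : sh p (c • f) = c • sh p f := rfl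

lemma sh_dl (p w : ℂ) : sh p (dl w) = dl (w - p) := by
  funext x
  apply dl_congr
  constructor
  · intro h; linear_combination h
  · intro h; linear_combination h

lemma hasSym_sh {f : ℂ → ℤ} (p : ℂ) (h : HasSym f) : HasSym (sh p f) := by
  obtain ⟨ω, b, hω, hne, hinv⟩ := h
  refine ⟨ω, b + ω * p - p, hω, ?_, fun x => ?_⟩
  · by_cases h1 : ω = 1
    · subst h1
      right
      have : b ≠ 0 := by tauto
      simpa using this
    · exact Or.inl h1
  · change f (ω * x + (b + ω * p - p) + p) = f (x + p)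
    rw [← hinv (x + p)]; congr 1; ring

lemma rot_sh {f : ℂ → ℤ} {p ω : ℂ} (h : Rot f p ω) : Rot (sh p f) 0 ω := by
  intro x
  change f (0 + ω * (x - 0) + p) = f (x + p)
  rw [← h (x + p)]; congr 1; ring

lemma ht_of_sh {f : ℂ → ℤ} {p : ℂ} (h : HT (sh p f)) : HT f := by
  obtain ⟨q, hq⟩ := h
  refine ⟨q + p, fun x => ?_⟩
  have := hq (x - p)
  change f (q + -1 * (x - p - q) + p) = f (x - p + p) at this
  rw [sub_add_cancel] at this
  rw [← this]; congr 1; ring

lemma sh_fin {f : ℂ → ℤ} (p : ℂ) (h : (support f).Finite) : (support (sh p f)).Finite := by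
  refine (h.preimage (f := fun x => x + p) ?_).subset ?_
  · intro x _ y _ hxy
    exact add_right_cancel hxy
  · intro x hx
    exact hx

theorem tri_false {F : ℂ → ℤ} (hF : (support F).Finite) (hnht : ¬ HT F) (hs0 : HasSym F)
    (W : Finset ℂ) (hW : W.card = 4) (ε : ℂ → ℤ)
    (hε : ∀ w, ε w = 1 ∨ ε w = -1) (hs1 : ∀ w ∈ W, HasSym (F + ε w • dl w))
    (hs2 : ∀ w ∈ W, ∀ w' ∈ W, w ≠ w' → HasSym (F + ε w • dl w + ε w' • dl w')) : False := by
  classical
  have hF0 : F ≠ 0 := fun h => hnht (ht_of_zero h)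
  obtain ⟨p, ω, hω, hω1, hrot⟩ := rot_of_hasSym hs0 (not_per_of_finite hF hF0)
  refine tri_false0 (F := sh p F) (sh_fin p hF) (fun h => hnht (ht_of_sh h)) hω hω1 (rot_sh hrot)
    (W.image (fun w => w - p)) ?_ (fun x => ε (x + p)) (fun x => hε _) ?_ ?_
  · rw [Finset.card_image_of_injective _ (fun x y h => by simpa using h), hW]
  · intro w hw
    obtain ⟨v, hv, rfl⟩ := Finset.mem_image.mp hw
    have := hasSym_sh p (hs1 v hv)
    rw [sh_add, sh_smul, sh_dl] at this
    simpa using this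
  · intro w hw w' hw' hne
    obtain ⟨v, hv, rfl⟩ := Finset.mem_image.mp hw
    obtain ⟨v', hv', rfl⟩ := Finset.mem_image.mp hw'
    have := hasSym_sh p (hs2 v hv v' hv' (fun h => hne (by rw [h])))
    rw [sh_add, sh_add, sh_smul, sh_smul, sh_dl, sh_dl] at this
    simpa using this

end Pool.Agent.MP_8e2340_co
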