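import Pool.Agent.MP_8e2340_co.Basic

/-!
# Finite configurations without half-turn symmetry
-/

namespace Pool.Agent.MP_8e2340_co

open Function Set

lemma Rot.add {f g : ℂ → ℤ} {p ω : ℂ} (hf : Rot f p ω) (hg : Rot g p ω) : Rot (f + g) p ω := by
  intro x; simp only [Pi.add_apply]; rw [hf x, hg x]

lemma Rot.sub {f g : ℂ → ℤ} {p ω : ℂ} (hf : Rot f p ω) (hg : Rot g p ω) : Rot (f - g) p ω := by
  intro x; simp only [Pi.sub_apply]; rw [hf x, hg x]

lemma Rot.smul {f : ℂ → ℤ} {p ω : ℂ} (c : ℤ) (hf : Rot f p ω) : Rot (c • f) p ω := by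
  intro x; simp only [Pi.smul_apply]; rw [hf x]

lemma dl_congr {a b x y : ℂ} (h : x = a ↔ y = b) : dl a x = dl b y := by
  unfold dl; simp only [h]

lemma rot_dl (q : ℂ) {ω : ℂ} (h0 : ω ≠ 0) : Rot (dl q) q ω := by
  intro x
  apply dl_congr
  constructor
  · intro h
    have h1 : ω * (x - q) = 0 := by linear_combination h
    rcases mul_eq_zero.mp h1 with h2 | h2
    · exact absurd h2 h0
    · exact sub_eq_zero.mp h2
  · rintro rfl; ring

lemma rot_pair {a b q : ℂ} (h : a + b = 2 * q) : Rot (dl a + dl b) q (-1) := by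
  intro x
  simp only [Pi.add_apply]
  have h1 : dl a (q + -1 * (x - q)) = dl b x := dl_congr (by
    constructor
    · intro h2; linear_combination -h2 - h
    · intro h2; linear_combination -h2 - h)
  have h2 : dl b (q + -1 * (x - q)) = dl a x := dl_congr (by
    constructor
    · intro h2; linear_combination -h2 - h
    · intro h2; linear_combination -h2 - h)
  rw [h1, h2]; ring

/-- the indicator of an equilateral triangle centred at the origin -/
noncomputable def tri (ω a : ℂ) : ℂ → ℤ := dl a + dl (ω * a) + dl (ω ^ 2 * a)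

lemma tri_fin (ω a : ℂ) : (support (tri ω a)).Finite :=
  fin_add (fin_add (dl_fin _) (dl_fin _)) (dl_fin _)

lemma cube_of {ω : ℂ} (h : ω ^ 2 + ω + 1 = 0) : ω ^ 3 = 1 := by
  linear_combination (ω - 1) * h

lemma rot_tri {ω : ℂ} (h : ω ^ 2 + ω + 1 = 0) (a : ℂ) : Rot (tri ω a) 0 ω := by
  have h3 := cube_of h
  have h0 : ω ≠ 0 := by rintro rfl; norm_num at h
  intro x
  simp only [tri, Pi.add_apply]
  have e1 : dl a (0 + ω * (x - 0)) = dl (ω ^ 2 * a) x := dl_congr (by
    constructor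
    · intro h2; linear_combination ω ^ 2 * h2 - x * h3
    · intro h2; linear_combination ω * h2 + a * h3)
  have e2 : dl (ω * a) (0 + ω * (x - 0)) = dl a x := dl_congr (by
    constructor
    · intro h2; exact mul_left_cancel₀ h0 (by linear_combination h2)
    · intro h2; linear_combination ω * h2)
  have e3 : dl (ω ^ 2 * a) (0 + ω * (x - 0)) = dl (ω * a) x := dl_congr (by
    constructor
    · intro h2; exact mul_left_cancel₀ h0 (by linear_combination h2)
    · intro h2; linear_combination ω * h2)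
  rw [e1, e2, e3]; ring

lemma M_tri (ω a : ℂ) (k : ℕ) : M (tri ω a) k = a ^ k + (ω * a) ^ k + (ω ^ 2 * a) ^ k := by
  unfold tri
  rw [M_add (fin_add (dl_fin _) (dl_fin _)) (dl_fin _), M_add (dl_fin _) (dl_fin _),
    M_dl, M_dl, M_dl]

lemma ht_of_zero {F : ℂ → ℤ} (h : F = 0) : HT F := ⟨0, fun x => by rw [h]; rfl⟩

lemma ht_of_dl {F : ℂ → ℤ} {c : ℤ} {w : ℂ} (h : F = c • dl w) : HT F :=
  ⟨w, h ▸ (rot_dl w (by norm_num)).smul c⟩

lemma M_zero_int {f : ℂ → ℤ} (hf : (support f).Finite) : ∃ n : ℤ, M f 0 = n := by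
  refine ⟨∑ x ∈ hf.toFinset, f x, ?_⟩
  unfold M
  rw [mom_eq_sum (s := hf.toFinset) _ (by simp)]
  push_cast
  refine Finset.sum_congr rfl fun x _ => by simp

/-- If `F` has a rotational symmetry about `0` but no half-turn symmetry, and adding `±1` at a
point `w ≠ 0` makes it symmetric again, then `F` is `±` an equilateral triangle. -/
lemma main_local {F : ℂ → ℤ} (hF : (support F).Finite) (hnht : ¬ HT F) {ω : ℂ} (hω : ‖ω‖ = 1)
    (hω1 : ω ≠ 1) (hrot : Rot F 0 ω) {ε : ℤ} (hε : ε = 1 ∨ ε = -1) {w : ℂ} (hw : w ≠ 0)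
    (hsym : HasSym (F + ε • dl w)) :
    ω ^ 2 + ω + 1 = 0 ∧ ∃ (a : ℂ) (c : ℤ), a ≠ 0 ∧ (c = 1 ∨ c = -1) ∧ F = c • tri ω a ∧
      ((w = a ∧ ε = -c) ∨ (w = -2 * a ∧ ε = c)) := by
  have hω0 := ne_zero_of_norm hω
  have hω2 : ω ^ 2 ≠ 1 := fun h => hnht ⟨0, eq_neg_one_of_sq h hω1 ▸ hrot⟩
  have hmk : ∀ k : ℕ, ω ^ k ≠ 1 → M F k = 0 := by
    intro k hk
    have := mom_rot_pow hF hω0 hrot k hk
    simpa [M] using this
  have hm1 : M F 1 = 0 := hmk 1 (by simpa using hω1)
  have hm2 : M F 2 = 0 := hmk 2 hω2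
  set G := F + ε • dl w with hGdef
  have hG : (support G).Finite := fin_add hF (fin_smul ε (dl_fin w))
  have hFG : F = G - ε • dl w := by rw [hGdef]; abel
  have hMG : ∀ k, M G k = M F k + ε * w ^ k := by
    intro k
    rw [hGdef, M_add hF (fin_smul ε (dl_fin w)), M_smul (dl_fin w), M_dl]
  have hG0 : G ≠ 0 := by
    intro h
    apply hnht
    refine ht_of_dl (c := -ε) (w := w) ?_
    rw [hFG, h]; simp
  obtain ⟨q, ω', hω', hω1', hrot'⟩ := rot_of_hasSym hsym (not_per_of_finite hG hG0)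
  have hω0' := ne_zero_of_norm hω'
  obtain ⟨n, hn⟩ := M_zero_int hF
  have hε2 : (ε : ℂ) ^ 2 = 1 := by rcases hε with h | h <;> simp [h]
  have hε0 : (ε : ℂ) ≠ 0 := by rcases hε with h | h <;> simp [h]
  have c1 := mom_rot_pow hG hω0' hrot' 1 (by simpa using hω1')
  rw [cm1 hG, hMG, hMG, hm1, hn] at c1
  have hz : w - q = ε * n * q := by
    linear_combination (ε : ℂ) * c1 - (w - q) * hε2
  have hq0 : q ≠ 0 := by
    rintro rfl
    apply hw
    simpa using hz
  -- the case of total mass zero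
  have hn0 : n ≠ 0 := by
    rintro rfl
    have hwq : w = q := by simpa [sub_eq_zero] using hz
    have h1 : Rot F q ω' := by
      rw [hFG, hwq]
      exact hrot'.sub ((rot_dl q hω0').smul ε)
    exact hnht (ht_of_zero (zero_of_rot_rot hF h1 hrot hω0' hω0 hω1' hω1 hq0))
  have hnε : n ≠ -ε := by
    intro h
    apply hw
    have h1 : (n : ℂ) = -ε := by rw [h]; push_cast; ring
    rw [h1] at hz
    linear_combination hz - q * hε2
  -- the second rotation is a half-turn
  have hω'2 : ω' ^ 2 = 1 := by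
    by_contra h2
    have c2 := mom_rot_pow hG hω0' hrot' 2 h2
    rw [cm2 hG, hMG, hMG, hMG, hm1, hm2, hn] at c2
    have h3 : (n : ℂ) * (1 + ε * n) * q ^ 2 = 0 := by
      have : (ε : ℂ) * (w - q) ^ 2 + n * q ^ 2 = 0 := by linear_combination c2
      rw [hz] at this
      linear_combination this - (ε * n ^ 2 * q ^ 2) * hε2
    rcases mul_eq_zero.mp h3 with h4 | h4
    · rcases mul_eq_zero.mp h4 with h5 | h5
      · exact hn0 (by exact_mod_cast h5)
      · apply hnε
        have : (n : ℂ) = -ε := by linear_combination ε * h5 - n * hε2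
        exact_mod_cast this
    · exact hq0 (pow_eq_zero_iff (by norm_num) |>.mp h4)
  have hω'm : ω' = -1 := eq_neg_one_of_sq hω'2 hω1'
  rw [hω'm] at hrot' hω0'
  -- the case of total mass `ε`
  have hnε' : n ≠ ε := by
    intro h
    have hw2 : w = 2 * q := by
      rw [h] at hz
      linear_combination hz + q * hε2
    have h1 : Rot (F - ε • dl 0) q (-1) := by
      have : F - ε • dl 0 = G - ε • (dl 0 + dl w) := by
        rw [hFG, smul_add]; abel
      rw [this]
      exact hrot'.sub ((rot_pair (by rw [hw2]; ring)).smul ε)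
    have h2 : Rot (F - ε • dl 0) 0 ω := hrot.sub ((rot_dl 0 hω0).smul ε)
    have h3 := zero_of_rot_rot (fin_sub hF (fin_smul ε (dl_fin 0))) h1 h2 hω0' hω0
      (by norm_num) hω1 hq0
    exact hnht (ht_of_dl (sub_eq_zero.mp h3))
  have hn1 : (n : ℂ) ^ 2 ≠ 1 := by
    intro h
    have h1 : n ^ 2 = 1 := by exact_mod_cast h
    have h2 : n = 1 ∨ n = -1 := by
      have h3 : (n - 1) * (n + 1) = 0 := by linear_combination h1
      rcases mul_eq_zero.mp h3 with h4 | h4
      · left; omega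
      · right; omega
    omega
  have hnC : (n : ℂ) ≠ 0 := by exact_mod_cast hn0
  have c3 := mom_rot_pow hG hω0' hrot' 3 (by norm_num)
  rw [cm3 hG, hMG, hMG, hMG, hMG, hm1, hm2, hn] at c3
  have c3' : M F 3 + ε * (w - q) ^ 3 - n * q ^ 3 = 0 := by linear_combination c3
  rw [hz] at c3'
  have hM3 : M F 3 = n * q ^ 3 * (1 - n ^ 2) := by
    linear_combination c3' - (n ^ 3 * q ^ 3 * (ε ^ 2 + 1)) * hε2
  have hω3 : ω ^ 3 = 1 := by
    by_contra h3
    have h4 := hmk 3 h3
    rw [hM3] at h4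
    rcases mul_eq_zero.mp h4 with h5 | h5
    · rcases mul_eq_zero.mp h5 with h6 | h6
      · exact hnC h6
      · exact hq0 (pow_eq_zero_iff (by norm_num) |>.mp h6)
    · exact hn1 (by linear_combination -h5)
  have hω4 : ω ^ 4 ≠ 1 := by
    have : ω ^ 4 = ω := by linear_combination ω * hω3
    rw [this]; exact hω1
  have hω5 : ω ^ 5 ≠ 1 := by
    have : ω ^ 5 = ω ^ 2 := by linear_combination ω ^ 2 * hω3
    rw [this]; exact hω2
  have c5 := mom_rot_pow hG hω0' hrot' 5 (by norm_num)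
  rw [cm5 hG, hMG, hMG, hMG, hMG, hMG, hMG, hm1, hm2, hn, hmk 4 hω4, hmk 5 hω5] at c5
  have c5' : 10 * q ^ 2 * M F 3 + ε * (w - q) ^ 5 - n * q ^ 5 = 0 := by linear_combination c5
  rw [hz, hM3] at c5'
  have h9 : (n : ℂ) * (n ^ 2 - 1) * (n ^ 2 - 9) * q ^ 5 = 0 := by
    linear_combination c5' - (n ^ 5 * q ^ 5 * (ε ^ 4 + ε ^ 2 + 1)) * hε2
  have hn3 : (n : ℂ) ^ 2 = 9 := by
    rcases mul_eq_zero.mp h9 with h | h
    · rcases mul_eq_zero.mp h with h | h
      · rcases mul_eq_zero.mp h with h | h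
        · exact absurd h hnC
        · exact absurd (by linear_combination h) hn1
      · linear_combination h
    · exact absurd (pow_eq_zero_iff (by norm_num) |>.mp h) hq0
  obtain ⟨c, hc, hnc⟩ : ∃ c : ℤ, (c = 1 ∨ c = -1) ∧ n = 3 * c := by
    have h1 : n ^ 2 = 9 := by exact_mod_cast hn3
    have h3 : (n - 3) * (n + 3) = 0 := by linear_combination h1
    rcases mul_eq_zero.mp h3 with h4 | h4
    · exact ⟨1, Or.inl rfl, by omega⟩
    · exact ⟨-1, Or.inr rfl, by omega⟩
  have hquad : ω ^ 2 + ω + 1 = 0 := by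
    have h1 : (ω - 1) * (ω ^ 2 + ω + 1) = 0 := by linear_combination hω3
    rcases mul_eq_zero.mp h1 with h2 | h2
    · exact absurd (sub_eq_zero.mp h2) hω1
    · exact h2
  have hncC : (n : ℂ) = 3 * c := by rw [hnc]; push_cast; ring
  have hc2 : (c : ℂ) ^ 2 = 1 := by rcases hc with h | h <;> simp [h]
  rw [hncC] at hz
  have hwa : (w = -2 * q ∧ ε = -c) ∨ (w = -2 * (-2 * q) ∧ ε = c) := by
    rcases hε with rfl | rfl <;> rcases hc with rfl | rfl
    · right; refine ⟨?_, rfl⟩
      push_cast at hz; linear_combination hz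
    · left; refine ⟨?_, rfl⟩
      push_cast at hz; linear_combination hz
    · left; refine ⟨?_, rfl⟩
      push_cast at hz; linear_combination hz
    · right; refine ⟨?_, rfl⟩
      push_cast at hz; linear_combination hz
  refine ⟨hquad, -2 * q, c, by simpa using hq0, hc, ?_, hwa⟩
  have h2 : Rot (F - c • tri ω (-2 * q)) 0 ω := hrot.sub ((rot_tri hquad _).smul c)
  have h1 : Rot (F - c • tri ω (-2 * q)) q (-1) := by
    have hp : Rot (dl (ω * (-2 * q)) + dl (ω ^ 2 * (-2 * q))) q (-1) :=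
      rot_pair (by linear_combination (-2 * q) * hquad)
    rcases hwa with ⟨hw', he⟩ | ⟨hw', he⟩
    · have : F - c • tri ω (-2 * q) =
          G - c • (dl (ω * (-2 * q)) + dl (ω ^ 2 * (-2 * q))) := by
        rw [hFG, hw', he, tri, smul_add, smul_add, smul_add, neg_smul]; abel
      rw [this]
      exact hrot'.sub (hp.smul c)
    · have hp2 : Rot (dl w + dl (-2 * q)) q (-1) := rot_pair (by rw [hw']; ring)
      have : F - c • tri ω (-2 * q) =
          G - c • ((dl w + dl (-2 * q)) + (dl (ω * (-2 * q)) + dl (ω ^ 2 * (-2 * q)))) := by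
        rw [hFG, he, tri]
        simp only [smul_add]; abel
      rw [this]
      exact hrot'.sub ((hp2.add hp).smul c)
  have h3 := zero_of_rot_rot (fin_sub hF (fin_smul c (tri_fin _ _))) h1 h2 hω0' hω0
      (by norm_num) hω1 hq0
  exact sub_eq_zero.mp h3

end Pool.Agent.MP_8e2340_co
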